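import Pool.Agent.Lib.MP_828627_an.Inj

open Filter Topology
open scoped ENNReal

noncomputable section

namespace Pool.Agent.Lib.MP_828627_an

variable {𝕜 : Type} [RCLike 𝕜]

section General

variable {E F : Type} [NormedAddCommGroup E] [NormedSpace 𝕜 E] [NormedAddCommGroup F]
  [NormedSpace 𝕜 F]

def adj (L : E →L[𝕜] F) : StrongDual 𝕜 F →L[𝕜] StrongDual 𝕜 E :=
  (ContinuousLinearMap.compL 𝕜 E F 𝕜).flip L

lemma adj_apply (L : E →L[𝕜] F) (f : StrongDual 𝕜 F) : adj L f = f.comp L := rfl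

lemma bidual_bound {n : ℕ} (Φ : StrongDual 𝕜 (StrongDual 𝕜 E)) (A : Fin n → E →L[𝕜] F)
    (d : PiLp pp fun _ : Fin n => F) (hd : ∀ i (f : StrongDual 𝕜 F), f (d i) = Φ (f.comp (A i)))
    (hA : ∀ x, ‖(WithLp.toLp pp fun i => A i x : PiLp pp fun _ : Fin n => F)‖ ≤ ‖x‖) :
    ‖d‖ ≤ ‖Φ‖ := by
  classical
  obtain ⟨g, hg1, hg2⟩ := exists_dual_vector'' 𝕜 d
  let sg : Fin n → F →L[𝕜] PiLp pp fun _ : Fin n => F := fun i =>
    LinearMap.mkContinuous
      { toFun := fun w => PiLp.single pp i w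
        map_add' := fun _ _ => PiLp.single_add pp i
        map_smul' := fun c w => by
          ext j
          by_cases h : j = i
          · subst h; simp
          · simp [h] } 1 fun w => by simp [PiLp.norm_single]
  have hsg : ∀ v : PiLp pp fun _ : Fin n => F, ∑ i, sg i (v i) = v := by
    intro v
    ext j
    rw [WithLp.ofLp_sum, Finset.sum_apply, Finset.sum_eq_single j]
    · simp [sg]
    · intro i _ h
      simp [sg, h.symm]
    · simp
  set ψ : StrongDual 𝕜 E := ∑ i, (g.comp (sg i)).comp (A i) with hψ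
  have h1 : g d = Φ ψ := by
    rw [hψ, map_sum, ← hsg d, map_sum]
    exact Finset.sum_congr rfl fun i _ => hd i (g.comp (sg i))
  have h2 : ‖ψ‖ ≤ 1 := by
    refine ContinuousLinearMap.opNorm_le_bound _ zero_le_one fun x => ?_
    have h3 : ψ x = g (WithLp.toLp pp fun i => A i x) := by
      rw [hψ, ← hsg (WithLp.toLp pp fun i => A i x), map_sum, sum_apply]
      rfl
    rw [h3]
    exact (g.le_opNorm _).trans (by gcongr; exact hA x)
  calc ‖d‖ = ‖g d‖ := by rw [hg2, RCLike.norm_ofReal, abs_norm]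
    _ ≤ ‖Φ‖ * ‖ψ‖ := by rw [h1]; exact Φ.le_opNorm ψ
    _ ≤ ‖Φ‖ * 1 := by gcongr
    _ = ‖Φ‖ := mul_one _

lemma cluster {ι : Type} (φ : ι → StrongDual 𝕜 E) (t : ι → 𝕜) (C : ℝ)
    (h : ∀ (s : Finset ι), ∀ ε > 0, ∃ y : E, ‖y‖ ≤ C ∧ ∀ i ∈ s, ‖φ i y - t i‖ ≤ ε) :
    ∃ Φ : StrongDual 𝕜 (StrongDual 𝕜 E), ∀ i, Φ (φ i) = t i := by
  classical
  have hK := WeakDual.isCompact_closedBall (𝕜 := 𝕜) (0 : StrongDual 𝕜 (StrongDual 𝕜 E)) C
  obtain ⟨Φ, -, hΦ⟩ := hK.inter_iInter_nonempty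
    (fun q : ι × ℕ => {Φ : WeakDual 𝕜 (StrongDual 𝕜 E) | ‖Φ (φ q.1) - t q.1‖ ≤ 1 / ((q.2 : ℝ) + 1)})
    (fun q => isClosed_le ((WeakDual.eval_continuous (φ q.1)).sub continuous_const).norm
      continuous_const)
    (by
      intro u
      obtain ⟨y, hy, h1⟩ := h (u.image Prod.fst) (1 / (((u.sup Prod.snd : ℕ) : ℝ) + 1))
        (by positivity)
      refine ⟨StrongDual.toWeakDual (NormedSpace.inclusionInDoubleDual 𝕜 E y), ?_, ?_⟩
      · simp only [Set.mem_preimage, mem_closedBall_zero_iff]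
        exact (NormedSpace.double_dual_bound 𝕜 E y).trans hy
      · simp only [Set.mem_iInter]
        intro q hq
        exact (h1 q.1 (Finset.mem_image_of_mem _ hq)).trans
          (Nat.one_div_le_one_div (Finset.le_sup (f := Prod.snd) hq)))
  refine ⟨WeakDual.toStrongDual Φ, fun i => ?_⟩
  rw [Set.mem_iInter] at hΦ
  have h1 : ‖Φ (φ i) - t i‖ ≤ 0 :=
    ge_of_tendsto' tendsto_one_div_add_atTop_nhds_zero_nat fun n => hΦ (i, n)
  exact sub_eq_zero.mp (norm_le_zero_iff.mp h1)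

lemma isClosed_ker' (Φ : StrongDual 𝕜 (StrongDual 𝕜 E)) :
    IsClosed ((LinearMap.ker Φ.toLinearMap : Submodule 𝕜 (StrongDual 𝕜 E)) :
      Set (StrongDual 𝕜 E)) := Φ.isClosed_ker

lemma plichko_of_bijective [CompleteSpace F] (T : StrongDual 𝕜 (StrongDual 𝕜 E) →ₗ[𝕜] F)
    (hT : ∀ Φ, ‖T Φ‖ ≤ ‖Φ‖) (h1 : ∀ Φ, T Φ = 0 → Φ = 0) (h2 : Function.Surjective T)
    (hF : IsPlichko 𝕜 F) : IsPlichko 𝕜 (StrongDual 𝕜 (StrongDual 𝕜 E)) := by
  let T' : StrongDual 𝕜 (StrongDual 𝕜 E) →L[𝕜] F :=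
    LinearMap.mkContinuous (E := StrongDual 𝕜 (StrongDual 𝕜 E)) (F := F) T 1
      fun Φ => by rw [one_mul]; exact hT Φ
  have h3 : LinearMap.ker T'.toLinearMap = ⊥ := LinearMap.ker_eq_bot'.mpr h1
  have h4 : LinearMap.range T'.toLinearMap = ⊤ := LinearMap.range_eq_top.mpr h2
  exact hF.of_equiv (ContinuousLinearEquiv.ofBijective T' h3 h4)

def crd (c : Om) : StrongDual 𝕜 (H 𝕜) := lp.evalCLM 𝕜 (fun _ : Om => 𝕜) 2 c

lemma crd_apply (c : Om) (w : H 𝕜) : crd c w = w c := rfl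

theorem plichko_bidual_of (e : Om → E →L[𝕜] H 𝕜)
    (ha : ∀ x b c, b ≤ c → e b x c = 0)
    (hb : ∀ x, VB (fun b => e b x) ‖x‖)
    (hc : ∀ K : Submodule 𝕜 (StrongDual 𝕜 E), IsClosed (K : Set (StrongDual 𝕜 E)) →
      (∀ (b : Om) (f : StrongDual 𝕜 (H 𝕜)), f.comp (e b) ∈ K) → ∀ φ, φ ∈ K)
    (hd : ∀ (v : V 𝕜) (F : Finset Om), ∀ ε > 0,
      ∃ y : E, ‖y‖ ≤ 2 * ‖v‖ + ε ∧ ∀ a ∈ F, ‖e a y - val v a‖ ≤ ε) :
    IsPlichko 𝕜 (StrongDual 𝕜 (StrongDual 𝕜 E)) := by
  classical
  have h0 : ∀ (Φ : StrongDual 𝕜 (StrongDual 𝕜 E)) (b : Om), ∃ w : H 𝕜,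
      ∀ f : StrongDual 𝕜 (H 𝕜), f w = Φ (f.comp (e b)) :=
    fun Φ b => refl_hilbert (Φ.comp (adj (e b)))
  choose Tf Tf_spec using h0
  have Tf_supp : ∀ Φ b c, b ≤ c → Tf Φ b c = 0 := by
    intro Φ b c h
    have h1 : (crd c).comp (e b) = 0 := by
      ext x
      rw [ContinuousLinearMap.comp_apply, crd_apply, ha x b c h]
      rfl
    rw [← crd_apply, Tf_spec, h1, map_zero]
  have Tf_VB : ∀ Φ, VB (Tf Φ) ‖Φ‖ := by
    intro Φ n u hu
    refine bidual_bound Φ (fun i : Fin n => e (u (i + 1)) - e (u i)) _ ?_ ?_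
    · intro i f
      rw [D_apply, map_sub, Tf_spec, Tf_spec, ← map_sub, ContinuousLinearMap.comp_sub]
    · intro x
      exact hb x n u hu
  let T : StrongDual 𝕜 (StrongDual 𝕜 E) →ₗ[𝕜] V 𝕜 :=
    { toFun := fun Φ => mkV (Tf Φ) (Tf_supp Φ) (Tf_VB Φ)
      map_add' := fun Φ Ψ => val_injective (by
        ext1 b
        rw [map_add, Pi.add_apply, val_mkV, val_mkV, val_mkV,
          SeparatingDual.eq_iff_forall_dual_eq (R := 𝕜)]
        intro f
        rw [map_add, Tf_spec, Tf_spec, Tf_spec, add_apply])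
      map_smul' := fun r Φ => val_injective (by
        ext1 b
        rw [map_smul, Pi.smul_apply, val_mkV, val_mkV,
          SeparatingDual.eq_iff_forall_dual_eq (R := 𝕜)]
        intro f
        rw [map_smul, Tf_spec, Tf_spec, smul_apply, RingHom.id_apply]) }
  have val_T : ∀ Φ, val (T Φ) = Tf Φ := fun _ => rfl
  refine plichko_of_bijective T (fun Φ => norm_le (Tf_VB Φ)) ?_ ?_ isPlichko_V
  · intro Φ h
    ext φ
    refine hc (LinearMap.ker Φ.toLinearMap) (isClosed_ker' Φ) (fun b f => ?_) φ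
    have h1 : Tf Φ b = 0 := by rw [← val_T, h, map_zero]; rfl
    have h2 := Tf_spec Φ b f
    rw [h1, map_zero] at h2
    exact h2.symm
  · intro v
    obtain ⟨Φ, hΦ⟩ := cluster (fun q : Om × Om => (crd q.2).comp (e q.1))
      (fun q => val v q.1 q.2) (2 * ‖v‖ + 1) (by
        intro s ε hε
        obtain ⟨y, h1, h2⟩ := hd v (s.image Prod.fst) _ (lt_min hε one_pos)
        refine ⟨y, h1.trans (by gcongr; exact min_le_right _ _), fun q hq => ?_⟩
        have h3 := (lp.norm_apply_le_norm (by simp) (e q.1 y - val v q.1) q.2).trans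
          ((h2 q.1 (Finset.mem_image_of_mem _ hq)).trans (min_le_left _ _))
        rw [lp.coeFn_sub, Pi.sub_apply] at h3
        rw [ContinuousLinearMap.comp_apply, crd_apply]
        exact h3)
    refine ⟨Φ, val_injective ?_⟩
    ext b c
    rw [val_T, ← crd_apply, Tf_spec]
    exact hΦ (b, c)

end General

lemma step_approx (v : V 𝕜) (F : Finset Om) : ∀ b, (∀ a ∈ F, a ≤ b) → ∀ ε > 0,
    ∃ (y : X 𝕜) (m : Om → Om), Monotone m ∧ (∀ a ∈ F, m a = a) ∧ m ⊥ = ⊥ ∧
      (∀ c, m c = ⊥ ∨ m c ∈ F) ∧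
      VB (val y.1 - (Set.Iic b).indicator (val v ∘ m)) ε := by
  classical
  induction F using Finset.induction_on_max with
  | empty =>
    intro b _ ε hε
    refine ⟨0, fun _ => ⊥, monotone_const, by simp, rfl, fun _ => Or.inl rfl, ?_⟩
    have : val (0 : X 𝕜).1 - (Set.Iic b).indicator (val v ∘ fun _ => ⊥) = 0 := by
      ext1 c
      simp [Set.indicator_apply, val_bot]
    rw [this]
    exact VB_zero.mono hε.le
  | insert a F hF ih =>
    intro b hb ε hε
    by_cases ha : a = ⊥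
    · obtain ⟨y, m, h1, h2, h3, h4, h5⟩ := ih b (fun c hc => hb c (Finset.mem_insert_of_mem hc)) ε hε
      refine ⟨y, m, h1, ?_, h3, fun c => (h4 c).imp_right Finset.mem_insert_of_mem, h5⟩
      intro c hc
      rcases Finset.mem_insert.mp hc with rfl | hc
      · rw [ha, h3]
      · exact h2 c hc
    obtain ⟨s, hs, h0⟩ := approx (val v a) (fun c hc => val_eq_zero v hc)
      (show 0 < ε / 4 by positivity)
    set d := (insert ⊥ (s ∪ F)).max' (Finset.insert_nonempty _ _) with hd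
    have hda : d < a := by
      rw [hd, Finset.max'_lt_iff]
      intro c hc
      rcases Finset.mem_insert.mp hc with rfl | hc
      · exact bot_lt_iff_ne_bot.mpr ha
      · rcases Finset.mem_union.mp hc with hc | hc
        · exact hs c hc
        · exact hF c hc
    have hsd : ∀ c ∈ s, c ≤ d := fun c hc =>
      Finset.le_max' _ _ (Finset.mem_insert_of_mem (Finset.mem_union_left _ hc))
    have hFd : ∀ c ∈ F, c ≤ d := fun c hc =>
      Finset.le_max' _ _ (Finset.mem_insert_of_mem (Finset.mem_union_right _ hc))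
    have hab : a ≤ b := hb a (Finset.mem_insert_self _ _)
    obtain ⟨y, m, h1, h2, h3, h4, h5⟩ := ih d hFd (ε / 2) (half_pos hε)
    have hma : ∀ c, m c ≤ a := by
      intro c
      rcases h4 c with h | h
      · rw [h]; exact bot_le
      · exact (hF _ h).le
    refine ⟨y + ∑ c ∈ s.attach, val v a c • blkX c d b (hsd c c.2),
      fun c => if c ≤ d then m c else a, ?_, ?_, ?_, ?_, ?_⟩
    · intro c c' h
      by_cases h6 : c' ≤ d
      · simp only [if_pos h6, if_pos (h.trans h6)]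
        exact h1 h
      · simp only [if_neg h6]
        split_ifs
        · exact hma c
        · exact le_rfl
    · intro c hc
      rcases Finset.mem_insert.mp hc with rfl | hc
      · exact if_neg (not_le.mpr hda)
      · simp only [if_pos (hFd c hc)]
        exact h2 c hc
    · simp only [if_pos (bot_le (a := d))]
      exact h3
    · intro c
      by_cases h6 : c ≤ d
      · simp only [if_pos h6]
        exact (h4 c).imp_right Finset.mem_insert_of_mem
      · simp only [if_neg h6]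
        exact Or.inr (Finset.mem_insert_self _ _)
    · have h6 : val (y + ∑ c ∈ s.attach, val v a c • blkX c d b (hsd c c.2)).1
          - (Set.Iic b).indicator (val v ∘ fun c => if c ≤ d then m c else a)
          = (val y.1 - (Set.Iic d).indicator (val v ∘ m))
            - (Set.Ioc d b).indicator fun _ => val v a - ∑ c ∈ s, val v a c • eb c := by
        ext1 c
        rw [Submodule.coe_add, Submodule.coe_sum, map_add, map_sum]
        simp only [Pi.sub_apply, Pi.add_apply, Finset.sum_apply, Submodule.coe_smul, map_smul,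
          Pi.smul_apply, val_blkX, Set.indicator_apply, Set.mem_Iic, Set.mem_Ioc,
          Function.comp_apply]
        by_cases h7 : c ≤ d
        · simp [h7, not_lt.mpr h7, h7.trans (hda.le.trans hab)]
        · by_cases h8 : c ≤ b
          · simp only [h7, h8, not_le.mp h7, if_true, if_false, and_self]
            rw [Finset.sum_attach s (fun c => val v a c • (eb c : H 𝕜))]
            abel
          · simp [h7, h8]
      rw [h6]
      exact (h5.sub (VB_Ioc d b _)).mono (by linarith)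

lemma approx_X (v : V 𝕜) (F : Finset Om) {ε : ℝ} (hε : 0 < ε) :
    ∃ y : X 𝕜, ‖y‖ ≤ 2 * ‖v‖ + ε ∧ ∀ a ∈ F, ‖val y.1 a - val v a‖ ≤ ε := by
  obtain ⟨b, hb⟩ := exists_ub F.countable_toSet
  obtain ⟨y, m, h1, h2, h3, -, h5⟩ := step_approx v F b (fun a ha => (hb a ha).le) ε hε
  refine ⟨y, norm_le_X ?_, fun a ha => ?_⟩
  · have h6 := (((VB_norm v).comp h1).cut b (norm_val_le v _)).add h5
    rwa [add_sub_cancel] at h6
  · have h6 := h5.sub_le (bot_le (a := a))
    simp only [Pi.sub_apply, Set.indicator_apply, Set.mem_Iic, Function.comp_apply, bot_le,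
      if_true, (hb a ha).le, h2 a ha, h3, val_bot, sub_zero] at h6
    exact h6

theorem main (𝕜 : Type) [RCLike 𝕜] :
    ∃ (X : Type) (_ : NormedAddCommGroup X) (_ : NormedSpace 𝕜 X),
      CompleteSpace X ∧ ¬ IsPlichko 𝕜 X ∧ IsPlichko 𝕜 (StrongDual 𝕜 (StrongDual 𝕜 X)) :=
  ⟨X 𝕜, inferInstance, inferInstance, inferInstance, not_isPlichko_X,
    plichko_bidual_of evX (fun x _ _ h => val_eq_zero x.1 h) (fun x => VB_norm x.1)
      (fun K hK hev φ => mem_of_ev K hK hev φ) (fun v F _ hε => approx_X v F hε)⟩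

end Pool.Agent.Lib.MP_828627_an
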