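import Mathlib

namespace Pool.Agent.Lib.MP_828627_an

/-- A subspace `N` of the dual is norming. -/
def IsNorming (𝕜 : Type) [RCLike 𝕜] (X : Type) [NormedAddCommGroup X] [NormedSpace 𝕜 X]
    (N : Submodule 𝕜 (StrongDual 𝕜 X)) : Prop :=
  ∃ c : ℝ, 0 < c ∧ ∀ x : X, c * ‖x‖ ≤ sSup {r : ℝ | ∃ f ∈ N, ‖f‖ ≤ 1 ∧ r = ‖f x‖}

/-- The Plichko property. -/
def IsPlichko (𝕜 : Type) [RCLike 𝕜] (X : Type) [NormedAddCommGroup X] [NormedSpace 𝕜 X] : Prop :=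
  ∃ (S : Set X) (N : Submodule 𝕜 (StrongDual 𝕜 X)),
    Dense (Submodule.span 𝕜 S : Set X) ∧ IsNorming 𝕜 X N ∧
      ∀ f ∈ N, {s ∈ S | f s ≠ 0}.Countable

end Pool.Agent.Lib.MP_828627_an
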