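import Pool.Agent.Lib.MP_828627_an.NotPl2

open Filter Topology
open scoped ENNReal

noncomputable section

namespace Pool.Agent.Lib.MP_828627_an

variable {𝕜 : Type} [RCLike 𝕜]

section General

variable {E F : Type} [NormedAddCommGroup E] [NormedSpace 𝕜 E] [NormedAddCommGroup F]
  [NormedSpace 𝕜 F]

lemma factor (ψ : E →L[𝕜] 𝕜) (L : E →L[𝕜] F) {C : ℝ} (h : ∀ x, ‖ψ x‖ ≤ C * ‖L x‖) :
    ∃ f : StrongDual 𝕜 F, ψ = f.comp L := by
  have hker : LinearMap.ker L.toLinearMap ≤ LinearMap.ker ψ.toLinearMap := by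
    intro x hx
    have h1 : L x = 0 := hx
    have h2 := h x
    rw [h1, norm_zero, mul_zero] at h2
    exact norm_le_zero_iff.mp h2
  let g0 : LinearMap.range L.toLinearMap →ₗ[𝕜] 𝕜 :=
    ((LinearMap.ker L.toLinearMap).liftQ ψ.toLinearMap hker).comp
      L.toLinearMap.quotKerEquivRange.symm.toLinearMap
  have hg0 : ∀ x, g0 ⟨L x, x, rfl⟩ = ψ x := by
    intro x
    have : L.toLinearMap.quotKerEquivRange.symm ⟨L x, x, rfl⟩ = Submodule.Quotient.mk x :=
      L.toLinearMap.quotKerEquivRange_symm_apply_image x _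
    simp only [g0, LinearMap.comp_apply, LinearEquiv.coe_coe, this, Submodule.liftQ_apply]
    rfl
  let g1 : StrongDual 𝕜 (LinearMap.range L.toLinearMap) := g0.mkContinuous C (by
    rintro ⟨_, x, rfl⟩
    have := hg0 x
    exact (congrArg norm this).trans_le (h x))
  obtain ⟨f, hf, -⟩ := exists_extension_norm_eq _ g1
  refine ⟨f, ?_⟩
  ext x
  exact ((hf ⟨L x, x, rfl⟩).trans (hg0 x)).symm

lemma mem_of_approx (K : Submodule 𝕜 (StrongDual 𝕜 E)) (hK : IsClosed (K : Set (StrongDual 𝕜 E)))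
    (φ : StrongDual 𝕜 E) (h : ∀ ε > 0, ∃ ψ ∈ K, ‖φ - ψ‖ < ε) : φ ∈ K := by
  rw [← SetLike.mem_coe, ← hK.closure_eq, Metric.mem_closure_iff]
  intro ε hε
  obtain ⟨ψ, h1, h2⟩ := h ε hε
  exact ⟨ψ, h1, by rwa [dist_eq_norm]⟩

lemma dual_sub_rev (f g : StrongDual 𝕜 E) : ‖f - g‖ = ‖g - f‖ := norm_sub_rev f g

lemma exists_limit (u : ℕ → StrongDual 𝕜 E)
    (h : ∀ n m N, N ≤ n → N ≤ m → ‖u n - u m‖ ≤ 1 / ((N : ℝ) + 1)) :
    ∃ χ, Tendsto u atTop (𝓝 χ) := by
  apply cauchySeq_tendsto_of_complete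
  refine cauchySeq_of_le_tendsto_0 (fun n : ℕ => 1 / ((n : ℝ) + 1)) ?_
    tendsto_one_div_add_atTop_nhds_zero_nat
  intro n m N hn hm
  rw [dist_eq_norm]
  exact h n m N hn hm

end General

lemma refl_hilbert {E : Type} [NormedAddCommGroup E] [InnerProductSpace 𝕜 E] [CompleteSpace E]
    (Ψ : StrongDual 𝕜 (StrongDual 𝕜 E)) : ∃ h : E, ∀ f, f h = Ψ f := by
  let g0 : E →ₗ[𝕜] 𝕜 :=
    { toFun := fun w => (starRingEnd 𝕜) (Ψ (InnerProductSpace.toDual 𝕜 E w))
      map_add' := fun _ _ => by simp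
      map_smul' := fun _ _ => by simp [LinearIsometryEquiv.map_smulₛₗ] }
  let g : StrongDual 𝕜 E := g0.mkContinuous ‖Ψ‖ fun w => by
    change ‖(starRingEnd 𝕜) (Ψ (InnerProductSpace.toDual 𝕜 E w))‖ ≤ _
    rw [RCLike.norm_conj]
    simpa using Ψ.le_opNorm (InnerProductSpace.toDual 𝕜 E w)
  refine ⟨(InnerProductSpace.toDual 𝕜 E).symm g, fun f => ?_⟩
  obtain ⟨w, rfl⟩ := (InnerProductSpace.toDual 𝕜 E).surjective f
  rw [InnerProductSpace.toDual_apply_apply, ← inner_conj_symm,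
    InnerProductSpace.toDual_symm_apply]
  change (starRingEnd 𝕜) ((starRingEnd 𝕜) (Ψ (InnerProductSpace.toDual 𝕜 E w))) = _
  rw [RCLike.conj_conj]

lemma disjoint_sum {ι : Type} (s : Finset ι) (y : ι → V 𝕜)
    (h : ∀ c, ∀ k ∈ s, ∀ l ∈ s, val (y k) c ≠ 0 → val (y l) c ≠ 0 → k = l) :
    ‖∑ k ∈ s, y k‖ ^ pr ≤ 2 * ∑ k ∈ s, ‖y k‖ ^ pr := by
  classical
  have key : ∀ c c', ‖val (∑ k ∈ s, y k) c' - val (∑ k ∈ s, y k) c‖ ^ pr
      ≤ 2 * ∑ k ∈ s, ‖val (y k) c' - val (y k) c‖ ^ pr := by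
    intro c c'
    set A := s.filter fun k => val (y k) c' - val (y k) c ≠ 0 with hA
    have h1 : ∀ d, (s.filter fun k => val (y k) d ≠ 0).card ≤ 1 := by
      intro d
      rw [Finset.card_le_one]
      intro k hk l hl
      rw [Finset.mem_filter] at hk hl
      exact h d k hk.1 l hl.1 hk.2 hl.2
    have h2 : A.card ≤ 2 := by
      have h3 : A ⊆ (s.filter fun k => val (y k) c ≠ 0) ∪ (s.filter fun k => val (y k) c' ≠ 0) := by
        intro k hk
        rw [hA, Finset.mem_filter] at hk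
        rw [Finset.mem_union, Finset.mem_filter, Finset.mem_filter]
        by_contra h4
        push Not at h4
        exact hk.2 (by rw [h4.1 hk.1, h4.2 hk.1, sub_zero])
      have := (Finset.card_le_card h3).trans (Finset.card_union_le _ _)
      linarith [h1 c, h1 c']
    have h3 : val (∑ k ∈ s, y k) c' - val (∑ k ∈ s, y k) c
        = ∑ k ∈ A, (val (y k) c' - val (y k) c) := by
      rw [map_sum, Finset.sum_apply, Finset.sum_apply, ← Finset.sum_sub_distrib, hA,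
        Finset.sum_filter_ne_zero]
    have h4 := Real.rpow_sum_le_const_mul_sum_rpow_of_nonneg (s := A)
      (f := fun k => ‖val (y k) c' - val (y k) c‖) one_lt_pr.le (fun _ _ => norm_nonneg _)
    have h5 : (A.card : ℝ) ^ (pr - 1) ≤ 2 := by
      have h6 : (A.card : ℝ) ≤ 2 := by exact_mod_cast h2
      calc (A.card : ℝ) ^ (pr - 1) ≤ 2 ^ (pr - 1) :=
            Real.rpow_le_rpow (Nat.cast_nonneg _) h6 (by linarith [one_lt_pr])
        _ ≤ 2 ^ (1 : ℝ) := Real.rpow_le_rpow_of_exponent_le (by norm_num) (by linarith [pr_lt_two])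
        _ = 2 := Real.rpow_one 2
    have h6 : ∑ k ∈ A, ‖val (y k) c' - val (y k) c‖ ^ pr
        ≤ ∑ k ∈ s, ‖val (y k) c' - val (y k) c‖ ^ pr :=
      Finset.sum_le_sum_of_subset_of_nonneg (Finset.filter_subset _ _) fun _ _ _ => by positivity
    have h7 : 0 ≤ ∑ k ∈ A, ‖val (y k) c' - val (y k) c‖ ^ pr :=
      Finset.sum_nonneg fun _ _ => by positivity
    rw [h3]
    calc ‖∑ k ∈ A, (val (y k) c' - val (y k) c)‖ ^ pr
        ≤ (∑ k ∈ A, ‖val (y k) c' - val (y k) c‖) ^ pr :=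
          Real.rpow_le_rpow (norm_nonneg _) (norm_sum_le _ _) pr_pos.le
      _ ≤ _ := h4
      _ ≤ 2 * ∑ k ∈ s, ‖val (y k) c' - val (y k) c‖ ^ pr := by gcongr
  refine norm_rpow_le fun n u hu => ?_
  unfold sm
  refine (Finset.sum_le_sum fun i _ => key (u i) (u (i + 1))).trans ?_
  rw [← Finset.mul_sum, Finset.sum_comm]
  gcongr with k
  exact sm_le (y k) n hu

def RX (b : Om) : X 𝕜 →L[𝕜] X 𝕜 :=
  ((R b).comp (Xsub 𝕜).subtypeL).codRestrict (Xsub 𝕜) fun x => R_mem b x.2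

lemma RX_val (b : Om) (x : X 𝕜) : (RX b x).1 = R b x.1 := rfl

lemma val_RX (b : Om) (x : X 𝕜) (c : Om) :
    val (RX b x).1 c = if c ≤ b then val x.1 c else 0 := by rw [RX_val, val_R]

lemma norm_X (x : X 𝕜) : ‖x‖ = ‖x.1‖ := rfl

lemma norm_RX_le (b : Om) (x : X 𝕜) : ‖RX b x‖ ≤ 2 * ‖x‖ := by
  rw [norm_X, norm_X, RX_val]
  exact norm_R_le b x.1

lemma X_ext {x y : X 𝕜} (h : ∀ c, val x.1 c = val y.1 c) : x = y :=
  Subtype.ext (val_injective (funext h))

def evX (b : Om) : X 𝕜 →L[𝕜] H 𝕜 := (ev b).comp (Xsub 𝕜).subtypeL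

lemma evX_apply (b : Om) (x : X 𝕜) : evX b x = val x.1 b := rfl

lemma blocks (φ : StrongDual 𝕜 (X 𝕜)) {I : Set Om} (hI : I.Nonempty) {ε : ℝ} (hε : 0 < ε) :
    ∃ b ∈ I, ∀ b' ∈ I, b ≤ b' → ‖φ.comp (RX b') - φ.comp (RX b)‖ ≤ ε := by
  by_contra hcon
  push Not at hcon
  have h1 : ∀ b ∈ I, ∃ b' ∈ I, b ≤ b' ∧ ∃ y : X 𝕜, ‖y‖ ≤ 4 ∧
      (∀ c, val y.1 c ≠ 0 → b < c ∧ c ≤ b') ∧ ∃ r : ℝ, ε < r ∧ φ y = r := by
    intro b hb
    obtain ⟨b', hb', h2, h3⟩ := hcon b hb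
    obtain ⟨x, hx, h4⟩ := ContinuousLinearMap.exists_lt_apply_of_lt_opNorm _ h3
    obtain ⟨s, hs, h5⟩ := RCLike.exists_norm_eq_mul_self ((φ.comp (RX b') - φ.comp (RX b)) x)
    refine ⟨b', hb', h2, s • (RX b' x - RX b x), ?_, ?_, _, h4, ?_⟩
    · rw [norm_smul, hs, one_mul]
      have := norm_sub_le (RX b' x) (RX b x)
      linarith [norm_RX_le b' x, norm_RX_le b x]
    · intro c hc
      rw [Submodule.coe_smul, Submodule.coe_sub, map_smul, map_sub, Pi.smul_apply, Pi.sub_apply,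
        val_RX, val_RX] at hc
      by_contra h6
      apply hc
      by_cases h7 : c ≤ b
      · rw [if_pos h7, if_pos (h7.trans h2), sub_self, smul_zero]
      · have h8 : ¬ c ≤ b' := fun h9 => h6 ⟨not_le.mp h7, h9⟩
        rw [if_neg h7, if_neg h8, sub_self, smul_zero]
    · rw [h5, map_smul, map_sub, smul_eq_mul]
      rfl
  choose! nx hnx1 hnx2 y hy1 hy2 r hr1 hr2 using h1
  obtain ⟨b0, hb0⟩ := hI
  let be : ℕ → Om := fun k => nx^[k] b0
  have hbe : ∀ k, be (k + 1) = nx (be k) := fun k => Function.iterate_succ_apply' nx k b0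
  have hbe1 : ∀ k, be k ∈ I := by
    intro k
    induction k with
    | zero => exact hb0
    | succ k ih => rw [hbe]; exact hnx1 _ ih
  have hbe2 : Monotone be :=
    monotone_nat_of_le_succ fun k => by rw [hbe]; exact hnx2 _ (hbe1 k)
  obtain ⟨j, hj⟩ := exists_nat_gt (max 1 (8 * ‖φ‖ / ε))
  have hj1 : (1 : ℝ) < j := (le_max_left _ _).trans_lt hj
  have hj2 : 8 * ‖φ‖ / ε < j := (le_max_right _ _).trans_lt hj
  have hj0 : (0 : ℝ) < j := by linarith
  set z : X 𝕜 := ∑ k ∈ Finset.range (j ^ 3), y (be k) with hz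
  have h2 : ‖z‖ ^ pr ≤ 2 * ∑ k ∈ Finset.range (j ^ 3), ‖(y (be k)).1‖ ^ pr := by
    rw [norm_X, hz, Submodule.coe_sum]
    apply disjoint_sum
    intro c k _ l _ hk hl
    obtain ⟨h3, h4⟩ := hy2 _ (hbe1 k) c hk
    obtain ⟨h5, h6⟩ := hy2 _ (hbe1 l) c hl
    rw [← hbe] at h4 h6
    rcases lt_trichotomy k l with h7 | h7 | h7
    · exact absurd (h5.trans_le (h4.trans (hbe2 h7))) (lt_irrefl _)
    · exact h7
    · exact absurd (h3.trans_le (h6.trans (hbe2 h7))) (lt_irrefl _)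
  have h3 : ‖z‖ ≤ 8 * (j : ℝ) ^ 2 := by
    rw [← Real.rpow_le_rpow_iff (norm_nonneg _) (by positivity) pr_pos]
    refine h2.trans ?_
    have h4 : ∑ k ∈ Finset.range (j ^ 3), ‖(y (be k)).1‖ ^ pr
        ≤ ∑ _k ∈ Finset.range (j ^ 3), (4 : ℝ) ^ pr :=
      Finset.sum_le_sum fun k _ => Real.rpow_le_rpow (norm_nonneg _) (by
        rw [← norm_X]; exact hy1 _ (hbe1 k)) pr_pos.le
    rw [Finset.sum_const, Finset.card_range, nsmul_eq_mul] at h4
    have h7 : ((j : ℝ) ^ 2) ^ pr = (j : ℝ) ^ 3 := by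
      rw [← Real.rpow_natCast, ← Real.rpow_mul hj0.le, ← Real.rpow_natCast]
      congr 1
      unfold pr
      norm_num
    have h8 : (2 : ℝ) ≤ 2 ^ pr := by
      calc (2 : ℝ) = 2 ^ (1 : ℝ) := (Real.rpow_one 2).symm
        _ ≤ 2 ^ pr := Real.rpow_le_rpow_of_exponent_le (by norm_num) one_lt_pr.le
    rw [show (8 : ℝ) * (j : ℝ) ^ 2 = 2 * (4 * (j : ℝ) ^ 2) by ring,
      Real.mul_rpow (by norm_num) (by positivity), Real.mul_rpow (by norm_num) (by positivity), h7]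
    push_cast at h4
    have h9 : (0 : ℝ) ≤ 4 ^ pr * (j : ℝ) ^ 3 := by positivity
    nlinarith
  have h4 : φ z = ((∑ k ∈ Finset.range (j ^ 3), r (be k) : ℝ) : 𝕜) := by
    rw [hz, map_sum, RCLike.ofReal_sum]
    exact Finset.sum_congr rfl fun k _ => hr2 _ (hbe1 k)
  have h5 : (j : ℝ) ^ 3 * ε ≤ ∑ k ∈ Finset.range (j ^ 3), r (be k) := by
    have := Finset.sum_le_sum (s := Finset.range (j ^ 3)) (f := fun _ => ε)
      fun k _ => (hr1 _ (hbe1 k)).le
    rw [Finset.sum_const, Finset.card_range, nsmul_eq_mul] at this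
    push_cast at this
    exact this
  have h6 := φ.le_opNorm z
  rw [h4, RCLike.norm_ofReal] at h6
  have h7 : (j : ℝ) ^ 3 * ε ≤ ‖φ‖ * (8 * (j : ℝ) ^ 2) :=
    h5.trans ((le_abs_self _).trans (h6.trans (by gcongr)))
  rw [div_lt_iff₀ hε] at hj2
  have h8 : 0 < (j : ℝ) ^ 2 := by positivity
  nlinarith

lemma comp_RX_mem (K : Submodule 𝕜 (StrongDual 𝕜 (X 𝕜))) 
    (hK : IsClosed (K : Set (StrongDual 𝕜 (X 𝕜))))
    (hev : ∀ (b : Om) (f : StrongDual 𝕜 (H 𝕜)), f.comp (evX b) ∈ K)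
    (φ : StrongDual 𝕜 (X 𝕜)) (a : Om) : φ.comp (RX a) ∈ K := by
  induction a using WellFoundedLT.induction with
  | ind a ih =>
    by_cases ha : a = ⊥
    · have : φ.comp (RX a) = 0 := by
        ext x
        have h1 : RX a x = 0 := X_ext fun c => by
          rw [val_RX, ha]
          split_ifs with h
          · rw [le_bot_iff.mp h, val_bot]
            rfl
          · rfl
        rw [ContinuousLinearMap.comp_apply, h1, map_zero]
        rfl
      rw [this]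
      exact K.zero_mem
    have hI : (Set.Iio a).Nonempty := ⟨⊥, bot_lt_iff_ne_bot.mpr ha⟩
    choose d hd1 hd2 using fun n : ℕ => blocks φ hI (show (0 : ℝ) < 1 / ((n : ℝ) + 1) by positivity)
    obtain ⟨χ, hχ⟩ := exists_limit (fun n => φ.comp (RX (d n))) (by
      intro n m N hn hm
      have hn' : 1 / ((n : ℝ) + 1) ≤ 1 / ((N : ℝ) + 1) := Nat.one_div_le_one_div hn
      have hm' : 1 / ((m : ℝ) + 1) ≤ 1 / ((N : ℝ) + 1) := Nat.one_div_le_one_div hm
      rcases le_total (d n) (d m) with h | h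
      · exact (dual_sub_rev _ _).trans_le ((hd2 n _ (hd1 m) h).trans hn')
      · exact (hd2 m _ (hd1 n) h).trans hm')
    have hχK : χ ∈ K := hK.mem_of_tendsto hχ (Eventually.of_forall fun n => ih _ (hd1 n))
    have h1 : ∀ x : X 𝕜, x.1 ∈ Submodule.span 𝕜 (gens 𝕜) →
        ‖(φ.comp (RX a) - χ) x‖ ≤ 2 * ‖φ‖ * ‖evX a x‖ := by
      intro x hx
      obtain ⟨e, he, h2⟩ := loc_const ha hx
      have h3 : Tendsto (fun n => ‖(φ.comp (RX a) - φ.comp (RX (d n))) x‖) atTop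
          (𝓝 ‖(φ.comp (RX a) - χ) x‖) :=
        ((((ContinuousLinearMap.apply 𝕜 𝕜 x).continuous.tendsto _).comp
          (tendsto_const_nhds.sub hχ))).norm
      have h4 : Tendsto (fun n : ℕ => 2 * ‖φ‖ * ‖evX a x‖ + 1 / ((n : ℝ) + 1) * ‖x‖) atTop
          (𝓝 (2 * ‖φ‖ * ‖evX a x‖ + 0 * ‖x‖)) :=
        tendsto_const_nhds.add (tendsto_one_div_add_atTop_nhds_zero_nat.mul tendsto_const_nhds)
      rw [zero_mul, add_zero] at h4
      refine le_of_tendsto_of_tendsto' h3 h4 fun n => ?_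
      set e' := max e (d n) with he'
      have h5 : e' < a := max_lt he (hd1 n)
      have h6 : (φ.comp (RX a) - φ.comp (RX (d n))) x
          = φ (RX a x - RX e' x) + (φ.comp (RX e') - φ.comp (RX (d n))) x := by
        simp only [sub_apply, ContinuousLinearMap.comp_apply, map_sub]
        ring
      have h7 : ‖RX a x - RX e' x‖ ≤ 2 * ‖evX a x‖ := by
        apply norm_le_X
        have h8 : val (RX a x - RX e' x).1 = (Set.Ioc e' a).indicator fun _ => evX a x := by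
          ext1 c
          rw [Submodule.coe_sub, map_sub, Pi.sub_apply, val_RX, val_RX, evX_apply]
          by_cases h9 : c ≤ e'
          · rw [if_pos h9, if_pos (h9.trans h5.le), sub_self, Set.indicator_of_notMem]
            exact fun h => not_lt.mpr h9 h.1
          · by_cases h10 : c ≤ a
            · rw [if_pos h10, if_neg h9, sub_zero,
                Set.indicator_of_mem (show c ∈ Set.Ioc e' a from ⟨not_le.mp h9, h10⟩)]
              exact h2 c ((le_max_left _ _).trans_lt (not_le.mp h9)) h10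
            · rw [if_neg h10, if_neg h9, sub_self, Set.indicator_of_notMem]
              exact fun h => h10 h.2
        rw [h8]
        exact VB_Ioc _ _ _
      have h8 := (φ.comp (RX e') - φ.comp (RX (d n))).le_opNorm x
      have h9 := hd2 n e' h5 (le_max_right _ _)
      have h10 := φ.le_opNorm (RX a x - RX e' x)
      rw [h6]
      refine (norm_add_le _ _).trans (add_le_add ?_ ?_)
      · calc _ ≤ ‖φ‖ * ‖RX a x - RX e' x‖ := h10
          _ ≤ ‖φ‖ * (2 * ‖evX a x‖) := by gcongr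
          _ = _ := by ring
      · exact h8.trans (by gcongr)
    have h2 : ∀ x : X 𝕜, ‖(φ.comp (RX a) - χ) x‖ ≤ 2 * ‖φ‖ * ‖evX a x‖ := by
      intro x
      have h3 : IsClosed {x : X 𝕜 | ‖(φ.comp (RX a) - χ) x‖ ≤ 2 * ‖φ‖ * ‖evX a x‖} :=
        isClosed_le (φ.comp (RX a) - χ).continuous.norm
          (continuous_const.mul (evX a).continuous.norm)
      refine closure_minimal (s := {x : X 𝕜 | x.1 ∈ Submodule.span 𝕜 (gens 𝕜)}) h1 h3 ?_
      rw [Metric.mem_closure_iff]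
      intro ε hε
      obtain ⟨y, hy, h4⟩ := exists_span x.2 hε
      refine ⟨⟨y, span_le_Xsub hy⟩, hy, ?_⟩
      rw [dist_eq_norm, norm_X]
      exact h4
    obtain ⟨f, hf⟩ := factor _ _ h2
    have h3 : φ.comp (RX a) = f.comp (evX a) + χ := by rw [← hf, sub_add_cancel]
    rw [h3]
    exact K.add_mem (hev a f) hχK

lemma mem_of_ev (K : Submodule 𝕜 (StrongDual 𝕜 (X 𝕜))) 
    (hK : IsClosed (K : Set (StrongDual 𝕜 (X 𝕜))))
    (hev : ∀ (b : Om) (f : StrongDual 𝕜 (H 𝕜)), f.comp (evX b) ∈ K)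
    (φ : StrongDual 𝕜 (X 𝕜)) : φ ∈ K := by
  refine mem_of_approx K hK φ fun ε hε => ?_
  obtain ⟨b, -, hb⟩ := blocks φ Set.univ_nonempty (half_pos hε)
  refine ⟨_, comp_RX_mem K hK hev φ b, ?_⟩
  refine lt_of_le_of_lt (ContinuousLinearMap.opNorm_le_bound _ (half_pos hε).le fun x => ?_)
    (half_lt_self hε)
  obtain ⟨c, hc⟩ := eventually_zero x.2
  have h1 : RX (max b c) x = x := X_ext fun d => by
    rw [val_RX]
    split_ifs with h
    · rfl
    · exact (hc d ((le_max_right _ _).trans_lt (not_le.mp h))).symm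
  have h2 := (φ.comp (RX (max b c)) - φ.comp (RX b)).le_opNorm x
  have h3 := hb (max b c) trivial (le_max_left _ _)
  have h4 : (φ.comp (RX (max b c)) - φ.comp (RX b)) x = (φ - φ.comp (RX b)) x := by
    simp only [sub_apply, ContinuousLinearMap.comp_apply, h1]
  rw [← h4]
  exact h2.trans (by gcongr)

end Pool.Agent.Lib.MP_828627_an
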