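import Pool.Agent.Lib.MP_828627_an.Ops

open Filter Topology
open scoped ENNReal

noncomputable section

namespace Pool.Agent.Lib.MP_828627_an

variable {𝕜 : Type} [RCLike 𝕜]

lemma blk_supp {a b : Om} {w : H 𝕜} (hw : ∀ c, a < c → w c = 0) :
    ∀ b' c, b' ≤ c → ((Set.Ioc a b).indicator fun _ => w) b' c = 0 := by
  intro b' c h
  by_cases hb : b' ∈ Set.Ioc a b
  · rw [Set.indicator_of_mem hb]
    exact hw c (hb.1.trans_le h)
  · rw [Set.indicator_of_notMem hb]
    rfl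

def blk (a b : Om) (w : H 𝕜) (hw : ∀ c, a < c → w c = 0) : V 𝕜 :=
  mkV ((Set.Ioc a b).indicator fun _ => w) (blk_supp hw) (VB_Ioc a b w)

lemma val_blk (a b : Om) (w : H 𝕜) (hw : ∀ c, a < c → w c = 0) :
    val (blk a b w hw) = (Set.Ioc a b).indicator fun _ => w := rfl

lemma eb_supp' {c a : Om} (h : c ≤ a) : ∀ c', a < c' → (eb c : H 𝕜) c' = 0 := by
  intro c' h'
  rw [eb_apply, if_neg (h.trans_lt h').ne']

def gens (𝕜 : Type) [RCLike 𝕜] : Set (V 𝕜) :=
  {x | ∃ (c a b : Om) (h : c ≤ a), x = blk a b (eb c) (eb_supp' h)}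

def Xsub (𝕜 : Type) [RCLike 𝕜] : Submodule 𝕜 (V 𝕜) :=
  (Submodule.span 𝕜 (gens 𝕜)).topologicalClosure

abbrev X (𝕜 : Type) [RCLike 𝕜] : Type := Xsub 𝕜

lemma isClosed_Xsub : IsClosed (Xsub 𝕜 : Set (V 𝕜)) := Submodule.isClosed_topologicalClosure _

instance : CompleteSpace (X 𝕜) := isClosed_Xsub.completeSpace_coe

lemma span_le_Xsub : Submodule.span 𝕜 (gens 𝕜) ≤ Xsub 𝕜 := Submodule.le_topologicalClosure _

lemma blk_mem {c a : Om} (b : Om) (h : c ≤ a) : blk a b (eb c) (eb_supp' h) ∈ Xsub 𝕜 :=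
  span_le_Xsub (Submodule.subset_span ⟨c, a, b, h, rfl⟩)

lemma Xsub_le {M : Submodule 𝕜 (V 𝕜)} (hM : IsClosed (M : Set (V 𝕜))) (hg : gens 𝕜 ⊆ M) :
    Xsub 𝕜 ≤ M := Submodule.topologicalClosure_minimal _ (Submodule.span_le.mpr hg) hM

lemma exists_span {x : V 𝕜} (hx : x ∈ Xsub 𝕜) {ε : ℝ} (hε : 0 < ε) :
    ∃ y ∈ Submodule.span 𝕜 (gens 𝕜), ‖x - y‖ < ε := by
  rw [Xsub, ← SetLike.mem_coe, Submodule.topologicalClosure_coe, Metric.mem_closure_iff] at hx
  obtain ⟨y, hy, h⟩ := hx ε hε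
  exact ⟨y, hy, by rwa [← dist_eq_norm]⟩

lemma cut_supp (x : V 𝕜) (b : Om) :
    ∀ b' c, b' ≤ c → ((Set.Iic b).indicator (val x)) b' c = 0 := by
  intro b' c h
  by_cases hb : b' ∈ Set.Iic b
  · rw [Set.indicator_of_mem hb]
    exact val_eq_zero x h
  · rw [Set.indicator_of_notMem hb]
    rfl

def R (b : Om) : V 𝕜 →L[𝕜] V 𝕜 :=
  LinearMap.mkContinuous
    { toFun := fun x => mkV ((Set.Iic b).indicator (val x)) (cut_supp x b)
        ((VB_norm x).cut b (norm_val_le x b))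
      map_add' := fun x y => val_injective (by
        ext1 c
        simp only [val_mkV, map_add, Pi.add_apply, Set.indicator_apply]
        split_ifs <;> simp)
      map_smul' := fun r x => val_injective (by
        ext1 c
        simp only [val_mkV, map_smul, Pi.smul_apply, Set.indicator_apply, RingHom.id_apply]
        split_ifs <;> simp) } 2
    fun x => norm_le ((VB_norm x).cut b (norm_val_le x b))

lemma val_R (b : Om) (x : V 𝕜) (c : Om) : val (R b x) c = if c ≤ b then val x c else 0 := by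
  change (Set.Iic b).indicator (val x) c = _
  simp only [Set.indicator_apply, Set.mem_Iic]

lemma norm_R_le (b : Om) (x : V 𝕜) : ‖R b x‖ ≤ 2 * ‖x‖ :=
  norm_le ((VB_norm x).cut b (norm_val_le x b))

lemma R_blk (b a b' : Om) (w : H 𝕜) (hw : ∀ c, a < c → w c = 0) :
    R b (blk a b' w hw) = blk a (min b b') w hw := by
  apply val_injective
  ext1 c
  rw [val_R, val_blk, val_blk]
  simp only [Set.indicator_apply, Set.mem_Ioc, le_min_iff]
  by_cases h : c ≤ b <;> simp [h]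

lemma map_mem {W : Type} [NormedAddCommGroup W] [NormedSpace 𝕜 W] (L : V 𝕜 →L[𝕜] W)
    {M : Submodule 𝕜 W} (hM : IsClosed (M : Set W)) (hg : ∀ x ∈ gens 𝕜, L x ∈ M) {x : V 𝕜}
    (hx : x ∈ Xsub 𝕜) : L x ∈ M := by
  have : Xsub 𝕜 ≤ M.comap L.toLinearMap :=
    Xsub_le (hM.preimage L.continuous) hg
  exact this hx

lemma R_mem (b : Om) {x : V 𝕜} (hx : x ∈ Xsub 𝕜) : R b x ∈ Xsub 𝕜 := by
  refine map_mem (R b) isClosed_Xsub ?_ hx
  rintro _ ⟨c, a, b', h, rfl⟩
  rw [R_blk]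
  exact blk_mem _ h

lemma eventually_zero {x : V 𝕜} (hx : x ∈ Xsub 𝕜) : ∃ b, ∀ c, b < c → val x c = 0 := by
  let M : Submodule 𝕜 (V 𝕜) :=
    { carrier := {x | ∃ b, ∀ c, b < c → val x c = 0}
      add_mem' := by
        rintro x y ⟨a, ha⟩ ⟨b, hb⟩
        refine ⟨max a b, fun c hc => ?_⟩
        rw [map_add, Pi.add_apply, ha c ((le_max_left _ _).trans_lt hc),
          hb c ((le_max_right _ _).trans_lt hc), add_zero]
      zero_mem' := ⟨⊥, fun _ _ => rfl⟩
      smul_mem' := by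
        rintro r x ⟨a, ha⟩
        exact ⟨a, fun c hc => by rw [map_smul, Pi.smul_apply, ha c hc, smul_zero]⟩ }
  have : Xsub 𝕜 ≤ M := by
    apply Xsub_le
    · apply IsSeqClosed.isClosed
      intro y z hy hz
      choose b hb using hy
      obtain ⟨d, hd⟩ := exists_ub (Set.countable_range b)
      refine ⟨d, fun c hc => ?_⟩
      have h1 : Tendsto (fun n => ev c (y n)) atTop (𝓝 (ev c z)) :=
        ((ev c).continuous.tendsto _).comp hz
      have h2 : ∀ n, ev c (y n) = 0 := fun n => hb n c ((hd _ ⟨n, rfl⟩).trans hc)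
      simp only [h2] at h1
      exact tendsto_nhds_unique h1 tendsto_const_nhds
    · rintro _ ⟨c, a, b, h, rfl⟩
      refine ⟨b, fun d hd => ?_⟩
      rw [val_blk, Set.indicator_of_notMem]
      exact fun h' => not_le.mpr hd h'.2
  exact this hx

lemma separable_Y (b : Om) :
    TopologicalSpace.IsSeparable {x : X 𝕜 | ∀ c, b < c → val x.1 c = 0} := by
  classical
  let G : Set (V 𝕜) := (fun q : Om × Om × Om =>
    if h : q.1 ≤ q.2.1 then blk q.2.1 q.2.2 (eb q.1) (eb_supp' h) else 0) ''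
      (Set.Iic b ×ˢ Set.Iic b ×ˢ Set.Iic b)
  have hG : G.Countable :=
    ((countable_Iic b).prod ((countable_Iic b).prod (countable_Iic b))).image _
  have h1 : TopologicalSpace.IsSeparable
      ((Submodule.span 𝕜 G).topologicalClosure : Set (V 𝕜)) := by
    rw [Submodule.topologicalClosure_coe]
    exact hG.isSeparable.span.closure
  have h2 : ∀ x ∈ Xsub 𝕜, R b x ∈ (Submodule.span 𝕜 G).topologicalClosure := by
    intro x hx
    refine map_mem (R b) (Submodule.isClosed_topologicalClosure _) ?_ hx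
    rintro _ ⟨c, a, b', h, rfl⟩
    rw [R_blk]
    by_cases hab : a ≤ b
    · apply Submodule.le_topologicalClosure
      apply Submodule.subset_span
      exact ⟨(c, a, min b b'), ⟨h.trans hab, hab, min_le_left b b'⟩, by simp [h]⟩
    · have : (blk a (min b b') (eb c) (eb_supp' h) : V 𝕜) = 0 := by
        apply val_injective
        rw [val_blk, Set.Ioc_eq_empty, Set.indicator_empty, map_zero]
        · rfl
        · exact not_lt.mpr ((min_le_left _ _).trans (not_le.mp hab).le)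
      rw [this]
      exact Submodule.zero_mem _
  have h3 := (Topology.IsEmbedding.subtypeVal (p := fun x => x ∈ Xsub 𝕜)).isSeparable_preimage h1
  refine h3.mono fun x hx => ?_
  have h4 : R b x.1 = x.1 := by
    apply val_injective
    ext1 c
    rw [val_R]
    split_ifs with h
    · rfl
    · exact (hx c (not_le.mp h)).symm
  have h5 := h2 x.1 x.2
  rw [h4] at h5
  exact h5

lemma loc_const {a : Om} (ha : a ≠ ⊥) {y : V 𝕜} (hy : y ∈ Submodule.span 𝕜 (gens 𝕜)) :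
    ∃ d, d < a ∧ ∀ c, d < c → c ≤ a → val y c = val y a := by
  induction hy using Submodule.span_induction with
  | mem x hx =>
    obtain ⟨c, a', b, h, rfl⟩ := hx
    simp only [val_blk, Set.indicator_apply, Set.mem_Ioc]
    by_cases h1 : a' < a
    · by_cases h2 : a ≤ b
      · exact ⟨a', h1, fun c' h3 h4 => by simp [h1, h2, h3, h4.trans h2]⟩
      · refine ⟨b, not_le.mp h2, fun c' h3 _ => ?_⟩
        simp [h2, not_le.mpr h3]
    · refine ⟨⊥, bot_lt_iff_ne_bot.mpr ha, fun c' _ h4 => ?_⟩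
      have : ¬ a' < c' := fun h5 => h1 (h5.trans_le h4)
      simp [h1, this]
  | zero => exact ⟨⊥, bot_lt_iff_ne_bot.mpr ha, fun _ _ _ => rfl⟩
  | add x y _ _ hx hy =>
    obtain ⟨d, hd, h1⟩ := hx
    obtain ⟨d', hd', h2⟩ := hy
    refine ⟨max d d', max_lt hd hd', fun c h3 h4 => ?_⟩
    rw [map_add, Pi.add_apply, Pi.add_apply, h1 c ((le_max_left _ _).trans_lt h3) h4,
      h2 c ((le_max_right _ _).trans_lt h3) h4]
  | smul r x _ hx =>
    obtain ⟨d, hd, h1⟩ := hx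
    exact ⟨d, hd, fun c h3 h4 => by rw [map_smul, Pi.smul_apply, Pi.smul_apply, h1 c h3 h4]⟩

lemma left_cont {a : Om} (ha : a ≠ ⊥) {x : V 𝕜} (hx : x ∈ Xsub 𝕜) {ε : ℝ} (hε : 0 < ε) :
    ∃ d, d < a ∧ ∀ c, d < c → c ≤ a → ‖val x a - val x c‖ ≤ ε := by
  obtain ⟨y, hy, h1⟩ := exists_span hx hε
  obtain ⟨d, hd, h2⟩ := loc_const ha hy
  refine ⟨d, hd, fun c h3 h4 => ?_⟩
  have h5 := (VB_norm (x - y)).sub_le h4
  rw [map_sub, Pi.sub_apply, Pi.sub_apply, h2 c h3 h4, sub_sub_sub_cancel_right] at h5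
  linarith

lemma exists_signs {ι : Type} [Fintype ι] [DecidableEq ι] (t : ι → ι → 𝕜) {δ : ℝ} (hδ : 0 ≤ δ)
    (h : ∀ k, δ ≤ ‖t k k‖) :
    ∃ e : ι → 𝕜, (∀ j, ‖e j‖ = 1) ∧
      (Fintype.card ι : ℝ) / 2 * δ ^ pr ≤ ∑ k, ‖∑ j, e j * t k j‖ ^ pr := by
  let sg : Bool → 𝕜 := fun b => if b then 1 else -1
  have hsg : ∀ b, ‖sg b‖ = 1 := by intro b; cases b <;> simp [sg]
  have hsg' : ∀ b, sg (!b) = - sg b := by intro b; cases b <;> simp [sg]
  let φ : ι → (ι → Bool) → ℝ := fun k σ => ‖∑ j, sg (σ j) * t k j‖ ^ pr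
  let fl : ι → (ι → Bool) → (ι → Bool) := fun k σ => Function.update σ k (!σ k)
  have hfl : ∀ k, Function.Involutive (fl k) := by
    intro k σ
    simp [fl]
  have h1 : ∀ k σ, δ ^ pr ≤ φ k σ + φ k (fl k σ) := by
    intro k σ
    have h2 : ∑ j, sg (σ j) * t k j - ∑ j, sg (fl k σ j) * t k j = 2 * (sg (σ k) * t k k) := by
      rw [← Finset.sum_sub_distrib, Finset.sum_eq_single k]
      · simp only [fl, Function.update_self, hsg']
        ring
      · intro j _ hj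
        simp [fl, Function.update_of_ne hj]
      · simp
    have h3 : 2 * δ ≤ ‖∑ j, sg (σ j) * t k j‖ + ‖∑ j, sg (fl k σ j) * t k j‖ := by
      refine le_trans ?_ (norm_sub_le _ _)
      rw [h2, norm_mul, norm_mul, hsg, one_mul, RCLike.norm_two]
      linarith [h k]
    have h4 : 0 ≤ φ k σ := by positivity
    have h5 : 0 ≤ φ k (fl k σ) := by positivity
    rcases le_total δ ‖∑ j, sg (σ j) * t k j‖ with h6 | h6
    · have := Real.rpow_le_rpow hδ h6 pr_pos.le
      linarith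
    · have h7 : δ ≤ ‖∑ j, sg (fl k σ j) * t k j‖ := by linarith
      have := Real.rpow_le_rpow hδ h7 pr_pos.le
      linarith
  have h2 : ∀ k, ∑ _σ : ι → Bool, δ ^ pr / 2 ≤ ∑ σ, φ k σ := by
    intro k
    have h3 : ∑ σ, φ k (fl k σ) = ∑ σ, φ k σ := Equiv.sum_comp (hfl k).toPerm (φ k)
    have h4 : ∑ _σ : ι → Bool, δ ^ pr ≤ ∑ σ, (φ k σ + φ k (fl k σ)) :=
      Finset.sum_le_sum fun σ _ => h1 k σ
    rw [Finset.sum_add_distrib, h3] at h4
    rw [← Finset.sum_div]
    linarith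
  have h3 : ∑ _σ : ι → Bool, (Fintype.card ι : ℝ) / 2 * δ ^ pr ≤ ∑ σ, ∑ k, φ k σ := by
    rw [Finset.sum_comm]
    refine le_trans (le_of_eq ?_) (Finset.sum_le_sum fun k _ => h2 k)
    rw [Finset.sum_comm]
    refine Finset.sum_congr rfl fun σ _ => ?_
    rw [Finset.sum_const, Finset.card_univ, nsmul_eq_mul]
    ring
  obtain ⟨σ, -, h4⟩ := Finset.exists_le_of_sum_le Finset.univ_nonempty h3
  exact ⟨fun j => sg (σ j), fun j => hsg _, h4⟩

lemma orthonormal_eb : Orthonormal 𝕜 (eb : Om → H 𝕜) := by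
  rw [orthonormal_iff_ite]
  intro i j
  unfold eb
  rw [lp.inner_single_left, lp.single_apply, Pi.single_apply]
  split_ifs <;> simp

lemma norm_sum_eb {ι : Type} [Fintype ι] {g : ι → Om} (hg : Function.Injective g) (e : ι → 𝕜)
    (he : ∀ j, ‖e j‖ = 1) : ‖∑ j, e j • (eb (g j) : H 𝕜)‖ ^ 2 = Fintype.card ι := by
  have h1 := (orthonormal_eb (𝕜 := 𝕜)).comp g hg
  have h2 := h1.inner_sum e e Finset.univ
  simp only [Function.comp_apply, RCLike.conj_mul, he] at h2
  rw [inner_self_eq_norm_sq_to_K] at h2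
  simp only [RCLike.ofReal_one, one_pow, Finset.sum_const, Finset.card_univ, nsmul_eq_mul,
    mul_one] at h2
  exact_mod_cast h2

end Pool.Agent.Lib.MP_828627_an
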