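import Pool.Agent.Lib.MP_828627_an.NotPl

open Filter Topology
open scoped ENNReal

noncomputable section

namespace Pool.Agent.Lib.MP_828627_an

variable {𝕜 : Type} [RCLike 𝕜]

def Ysub (𝕜 : Type) [RCLike 𝕜] {a : Om} (ha : ⊥ < a) : Submodule 𝕜 (X 𝕜) where
  carrier := {x | ∃ b, b < a ∧ ∀ c, b < c → val x.1 c = 0}
  add_mem' := by
    rintro x y ⟨b, hb, h1⟩ ⟨b', hb', h2⟩
    refine ⟨max b b', max_lt hb hb', fun c hc => ?_⟩
    rw [Submodule.coe_add, map_add, Pi.add_apply, h1 c ((le_max_left _ _).trans_lt hc),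
      h2 c ((le_max_right _ _).trans_lt hc), add_zero]
  zero_mem' := ⟨⊥, ha, fun _ _ => rfl⟩
  smul_mem' := by
    rintro r x ⟨b, hb, h1⟩
    exact ⟨b, hb, fun c hc => by
      rw [Submodule.coe_smul, map_smul, Pi.smul_apply, h1 c hc, smul_zero]⟩

lemma mem_Ysub {a : Om} (ha : ⊥ < a) (x : X 𝕜) :
    x ∈ Ysub 𝕜 ha ↔ ∃ b, b < a ∧ ∀ c, b < c → val x.1 c = 0 := Iff.rfl

def blkX (c a b : Om) (h : c ≤ a) : X 𝕜 := ⟨blk a b (eb c) (eb_supp' h), blk_mem b h⟩

lemma val_blkX (c a b : Om) (h : c ≤ a) :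
    val (blkX (𝕜 := 𝕜) c a b h).1 = (Set.Ioc a b).indicator fun _ => eb c := rfl

lemma norm_val_le_X (x : X 𝕜) (b : Om) : ‖val x.1 b‖ ≤ ‖x‖ := norm_val_le x.1 b

lemma norm_le_X {x : X 𝕜} {C : ℝ} (h : VB (val x.1) C) : ‖x‖ ≤ C := norm_le h

lemma sm_le_X (x : X 𝕜) (n : ℕ) {u : ℕ → Om} (hu : Monotone u) : sm (val x.1) n u ≤ ‖x‖ ^ pr :=
  sm_le x.1 n hu

lemma closing_off (h : IsPlichko 𝕜 (X 𝕜)) :
    ∃ (a : Om) (ha : ⊥ < a) (Z : Submodule 𝕜 (X 𝕜)) (K : ℝ), 0 < K ∧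
      (∀ b, b < a → ∃ b', b < b' ∧ b' < a) ∧
      (∀ y ∈ Ysub 𝕜 ha, ∀ z ∈ Z, ‖z‖ ≤ K * ‖y + z‖) ∧
      ∀ x : X 𝕜, ∀ ε > 0, ∃ y ∈ Ysub 𝕜 ha, ∃ z ∈ Z, ‖x - (y + z)‖ ≤ ε := by
  obtain ⟨S, N, hS, hN, hc⟩ := h
  rw [isNorming_iff] at hN
  obtain ⟨c, hc0, hN⟩ := hN
  choose f hfN hf1 hf2 using hN
  have hsep : ∀ b : Om, ∃ t : Set (X 𝕜), t.Countable ∧
      {x : X 𝕜 | ∀ c, b < c → val x.1 c = 0} ⊆ closure t := fun b => separable_Y b
  choose t ht1 ht2 using hsep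
  have hz : ∀ x : X 𝕜, ∃ b, ∀ c, b < c → val x.1 c = 0 := fun x => eventually_zero x.2
  choose rho hrho using hz
  have hg : ∀ b : Om, ∃ g, b < g ∧ ∀ d ∈ t b, ∀ s ∈ S, f d s ≠ 0 → rho s < g := by
    intro b
    have h1 : (⋃ d ∈ t b, {s ∈ S | f d s ≠ 0}).Countable :=
      (ht1 b).biUnion fun d _ => hc _ (hfN d)
    obtain ⟨g, hg⟩ := exists_ub ((h1.image rho).insert b)
    refine ⟨g, hg b (Set.mem_insert _ _), fun d hd s hs h2 => hg _ (Set.mem_insert_of_mem _ ?_)⟩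
    exact ⟨s, Set.mem_biUnion hd ⟨hs, h2⟩, rfl⟩
  choose g hg1 hg2 using hg
  let al : ℕ → Om := fun n => g^[n] ⊥
  have hal : ∀ n, al (n + 1) = g (al n) := fun n => Function.iterate_succ_apply' g n ⊥
  obtain ⟨a, ha1, ha2⟩ := WellFounded.has_min wellFounded_lt {b : Om | ∀ n, al n < b}
    (by
      obtain ⟨b, hb⟩ := exists_ub (Set.countable_range al)
      exact ⟨b, fun n => hb _ ⟨n, rfl⟩⟩)
  have ha3 : ∀ b, b < a → ∃ n, b ≤ al n := by
    intro b hb
    by_contra h1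
    push Not at h1
    exact ha2 b h1 hb
  have ha : ⊥ < a := ha1 0
  have key : ∀ y ∈ Ysub 𝕜 ha, ∀ z ∈ Submodule.span 𝕜 (S \ Ysub 𝕜 ha), c * ‖y‖ ≤ ‖y + z‖ := by
    rintro y ⟨b, hb, hy⟩ z hz
    obtain ⟨n, hn⟩ := ha3 b hb
    have h1 : y ∈ closure (t (al n)) := ht2 (al n) fun c hc => hy c (hn.trans_lt hc)
    have h2 : IsClosed {y : X 𝕜 | c * ‖y‖ ≤ ‖y + z‖} :=
      isClosed_le (by fun_prop) (by fun_prop)
    refine closure_minimal (fun d hd => ?_) h2 h1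
    have h3 : Submodule.span 𝕜 (S \ Ysub 𝕜 ha) ≤ LinearMap.ker (f d).toLinearMap := by
      rw [Submodule.span_le]
      rintro s ⟨hs, hs'⟩
      by_contra h4
      apply hs'
      have h5 := hg2 (al n) d hd s hs h4
      rw [← hal] at h5
      exact ⟨rho s, h5.trans (ha1 _), hrho s⟩
    have h4 : f d z = 0 := h3 hz
    calc c * ‖d‖ ≤ ‖f d d‖ := hf2 d
      _ = ‖f d (d + z)‖ := by rw [map_add, h4, add_zero]
      _ ≤ ‖f d‖ * ‖d + z‖ := (f d).le_opNorm _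
      _ ≤ 1 * ‖d + z‖ := by gcongr; exact hf1 d
      _ = ‖d + z‖ := one_mul _
  refine ⟨a, ha, Submodule.span 𝕜 (S \ Ysub 𝕜 ha), 1 + 1 / c, by positivity, ?_, ?_, ?_⟩
  · intro b hb
    obtain ⟨n, hn⟩ := ha3 b hb
    exact ⟨al (n + 1), hn.trans_lt (by rw [hal]; exact hg1 _), ha1 _⟩
  · intro y hy z hz
    have h1 := key y hy z hz
    have h2 : ‖y‖ ≤ 1 / c * ‖y + z‖ := by
      rw [one_div, ← div_eq_inv_mul, le_div_iff₀ hc0]
      linarith
    have h3 : ‖z‖ ≤ ‖y + z‖ + ‖y‖ := by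
      have := norm_sub_le (y + z) y
      rwa [add_sub_cancel_left] at this
    linarith
  · intro x ε hε
    obtain ⟨w, hw, h1⟩ := Metric.mem_closure_iff.mp (hS x) ε hε
    have h2 : Submodule.span 𝕜 S ≤ Ysub 𝕜 ha ⊔ Submodule.span 𝕜 (S \ Ysub 𝕜 ha) := by
      rw [Submodule.span_le]
      intro s hs
      by_cases h3 : s ∈ Ysub 𝕜 ha
      · exact Submodule.mem_sup_left h3
      · exact Submodule.mem_sup_right (Submodule.subset_span ⟨hs, h3⟩)
    obtain ⟨y, hy, z, hz, h4⟩ := Submodule.mem_sup.mp (h2 hw)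
    refine ⟨y, hy, z, hz, ?_⟩
    rw [h4, ← dist_eq_norm]
    exact h1.le

theorem not_isPlichko_X : ¬ IsPlichko 𝕜 (X 𝕜) := by
  classical
  intro h
  obtain ⟨a, ha, Z, K, hK, hlim, hZ, hdec⟩ := closing_off h
  obtain ⟨j, hj⟩ := exists_nat_gt (max 1 (2 * (6 * K) ^ pr))
  have hj1 : (1 : ℝ) < j := (le_max_left _ _).trans_lt hj
  have hj2 : 2 * (6 * K) ^ pr < j := (le_max_right _ _).trans_lt hj
  have hj0 : (0 : ℝ) < j := by linarith
  set η : ℝ := 1 / (4 * (j : ℝ) ^ 2) with hη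
  have hη0 : 0 < η := by positivity
  have hη1 : η ≤ 1 / 4 := by
    apply one_div_le_one_div_of_le (by norm_num)
    nlinarith
  choose y hy z hz hyz using fun c : Om => hdec (blkX c c a le_rfl) η hη0
  have hb : ∀ c, c < a → ∃ b, c < b ∧ b < a ∧ 1 / 2 ≤ ‖val (z c).1 b c‖ := by
    intro c hc
    obtain ⟨d, hd, h1⟩ := left_cont ha.ne' (z c).2 (show (0 : ℝ) < 1 / 4 by norm_num)
    obtain ⟨b, hb1, hb2⟩ := hlim (max d c) (max_lt hd hc)
    refine ⟨b, (le_max_right _ _).trans_lt hb1, hb2, ?_⟩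
    have h2 := h1 b ((le_max_left _ _).trans_lt hb1) hb2.le
    have h3 := (norm_val_le_X (blkX c c a le_rfl - (y c + z c)) a).trans (hyz c)
    obtain ⟨b', hb', h4⟩ := hy c
    rw [Submodule.coe_sub, Submodule.coe_add, map_sub, map_add, Pi.sub_apply, Pi.add_apply,
      h4 a hb', zero_add, val_blkX, Set.indicator_of_mem (show a ∈ Set.Ioc c a from ⟨hc, le_rfl⟩)]
      at h3
    have h5 : ‖eb c - val (z c).1 b‖ ≤ 1 / 2 := by
      have := norm_add_le (eb c - val (z c).1 a) (val (z c).1 a - val (z c).1 b)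
      rw [sub_add_sub_cancel] at this
      linarith
    have h6 := (lp.norm_apply_le_norm (by simp) (eb c - val (z c).1 b) c).trans h5
    rw [lp.coeFn_sub, Pi.sub_apply, eb_apply, if_pos rfl] at h6
    have h7 := norm_sub_norm_le (1 : 𝕜) (val (z c).1 b c)
    rw [norm_one] at h7
    linarith
  choose! nx hnx1 hnx2 hnx3 using hb
  let gam : ℕ → Om := fun k => nx^[k] ⊥
  have hgam : ∀ k, gam (k + 1) = nx (gam k) := fun k => Function.iterate_succ_apply' nx k ⊥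
  have hgam1 : ∀ k, gam k < a := by
    intro k
    induction k with
    | zero => exact ha
    | succ k ih => rw [hgam]; exact hnx2 _ ih
  have hgam2 : StrictMono gam :=
    strictMono_nat_of_lt_succ fun k => by rw [hgam]; exact hnx1 _ (hgam1 k)
  set m := j ^ 4 with hm
  obtain ⟨e, he, h1⟩ := exists_signs (ι := Fin m)
    (fun k i => val (z (gam i)).1 (gam (k + 1)) (gam k)) (show (0 : ℝ) ≤ 1 / 2 by norm_num)
    (fun k => by rw [hgam]; exact hnx3 _ (hgam1 k))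
  set zz : X 𝕜 := ∑ i : Fin m, e i • z (gam i) with hzz
  have hzzZ : zz ∈ Z := Submodule.sum_mem _ fun i _ => Submodule.smul_mem _ _ (hz _)
  set yy : X 𝕜 := ∑ i : Fin m, e i • (y (gam i) - blkX (gam i) (gam i) (gam m) le_rfl) with hyy
  have hyyY : yy ∈ Ysub 𝕜 ha := by
    refine Submodule.sum_mem _ fun i _ => Submodule.smul_mem _ _ (Submodule.sub_mem _ (hy _) ?_)
    refine ⟨gam m, hgam1 m, fun c hc => ?_⟩
    rw [val_blkX, Set.indicator_of_notMem]
    exact fun h' => not_le.mpr hc h'.2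
  have hw : ‖∑ i : Fin m, e i • (eb (gam i) : H 𝕜)‖ = (j : ℝ) ^ 2 := by
    have h2 := norm_sum_eb (g := fun i : Fin m => gam i)
      (fun i i' h => Fin.ext (hgam2.injective h)) e he
    rw [Fintype.card_fin] at h2
    have hm' : (m : ℝ) = (j : ℝ) ^ 4 := by rw [hm]; push_cast; rfl
    have h3 : ‖∑ i : Fin m, e i • (eb (gam i) : H 𝕜)‖ ^ 2 = ((j : ℝ) ^ 2) ^ 2 := by
      rw [h2, hm']; ring
    exact (pow_left_inj₀ (norm_nonneg _) (by positivity) two_ne_zero).mp h3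
  have h2 : ‖yy + zz‖ ≤ 3 * (j : ℝ) ^ 2 := by
    have h3 : yy + zz = ∑ i : Fin m, e i • (blkX (gam i) (gam i) a le_rfl
        - blkX (gam i) (gam i) (gam m) le_rfl)
        - ∑ i : Fin m, e i • (blkX (gam i) (gam i) a le_rfl - (y (gam i) + z (gam i))) := by
      rw [hyy, hzz, ← Finset.sum_add_distrib, ← Finset.sum_sub_distrib]
      refine Finset.sum_congr rfl fun i _ => ?_
      rw [← smul_add, ← smul_sub]
      congr 1
      abel
    have h4 : ‖∑ i : Fin m, e i • (blkX (gam i) (gam i) a le_rfl - (y (gam i) + z (gam i)))‖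
        ≤ (j : ℝ) ^ 2 := by
      refine (norm_sum_le _ _).trans ?_
      have h5 : ∀ i ∈ (Finset.univ : Finset (Fin m)),
          ‖e i • (blkX (gam i) (gam i) a le_rfl - (y (gam i) + z (gam i)))‖ ≤ η := by
        intro i _
        rw [norm_smul, he, one_mul]
        exact hyz _
      refine (Finset.sum_le_sum h5).trans ?_
      rw [Finset.sum_const, Finset.card_univ, Fintype.card_fin, nsmul_eq_mul, hm, hη]
      push_cast
      rw [mul_one_div, div_le_iff₀ (by positivity)]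
      nlinarith [pow_pos hj0 4]
    have h5 : ‖∑ i : Fin m, e i • (blkX (𝕜 := 𝕜) (gam i) (gam i) a le_rfl
        - blkX (gam i) (gam i) (gam m) le_rfl)‖ ≤ 2 * (j : ℝ) ^ 2 := by
      rw [← hw]
      apply norm_le_X
      have h6 : val ((∑ i : Fin m, e i • (blkX (𝕜 := 𝕜) (gam i) (gam i) a le_rfl
        - blkX (gam i) (gam i) (gam m) le_rfl) : X 𝕜) : V 𝕜) =
          (Set.Ioc (gam m) a).indicator fun _ => ∑ i : Fin m, e i • (eb (gam i) : H 𝕜) := by
        ext1 c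
        rw [Submodule.coe_sum, map_sum, Finset.sum_apply]
        simp only [Submodule.coe_smul, Submodule.coe_sub, map_smul, map_sub, Pi.smul_apply,
          Pi.sub_apply, val_blkX, Set.indicator_apply, Set.mem_Ioc]
        have h7 : ∀ i : Fin m, gam i < gam m := fun i => hgam2 i.2
        by_cases h8 : gam m < c
        · by_cases h9 : c ≤ a
          · simp [h8, h9, fun i => (h7 i).trans h8, not_le.mpr h8]
          · simp [h9, not_le.mpr h8]
        · have h9 : c ≤ gam m := not_lt.mp h8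
          simp [h8, h9, h9.trans (hgam1 m).le]
      rw [h6]
      exact VB_Ioc _ _ _
    rw [h3]
    refine (norm_sub_le _ _).trans ?_
    linarith
  have h3 : ‖zz‖ ≤ 3 * K * (j : ℝ) ^ 2 := by
    calc ‖zz‖ ≤ K * ‖yy + zz‖ := hZ yy hyyY zz hzzZ
      _ ≤ K * (3 * (j : ℝ) ^ 2) := by gcongr
      _ = _ := by ring
  have h4 : ∑ k : Fin m, ‖∑ i : Fin m, e i * val (z (gam i)).1 (gam (k + 1)) (gam k)‖ ^ pr
      ≤ ‖zz‖ ^ pr := by
    refine le_trans ?_ (sm_le_X zz m hgam2.monotone)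
    unfold sm
    rw [← Fin.sum_univ_eq_sum_range
      (fun i => ‖val zz.1 (gam (i + 1)) - val zz.1 (gam i)‖ ^ pr)]
    refine Finset.sum_le_sum fun k _ => Real.rpow_le_rpow (norm_nonneg _) ?_ pr_pos.le
    refine le_trans (le_of_eq ?_)
      (lp.norm_apply_le_norm (by simp) (val zz.1 (gam (k + 1)) - val zz.1 (gam k)) (gam k))
    rw [lp.coeFn_sub, Pi.sub_apply, val_eq_zero zz.1 le_rfl, sub_zero, hzz, Submodule.coe_sum,
      map_sum, Finset.sum_apply, lp.coeFn_sum, Finset.sum_apply]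
    rfl
  have h5 : (m : ℝ) / 2 * (1 / 2) ^ pr ≤ (3 * K * (j : ℝ) ^ 2) ^ pr := by
    rw [Fintype.card_fin] at h1
    exact h1.trans (h4.trans (Real.rpow_le_rpow (norm_nonneg _) h3 pr_pos.le))
  have h6 : (3 * K * (j : ℝ) ^ 2) ^ pr = (1 / 2) ^ pr * ((6 * K) ^ pr * (j : ℝ) ^ 3) := by
    have h7 : ((j : ℝ) ^ 2) ^ pr = (j : ℝ) ^ 3 := by
      rw [← Real.rpow_natCast, ← Real.rpow_mul hj0.le, ← Real.rpow_natCast]
      congr 1
      unfold pr
      norm_num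
    rw [← h7, ← Real.mul_rpow (by positivity) (by positivity),
      ← Real.mul_rpow (by positivity) (by positivity)]
    congr 1
    ring
  rw [h6, hm, mul_comm] at h5
  have h8 : (0 : ℝ) < (1 / 2) ^ pr := by positivity
  have h9 := le_of_mul_le_mul_left h5 h8
  push_cast at h9
  have h10 : 0 < (j : ℝ) ^ 3 := by positivity
  nlinarith

end Pool.Agent.Lib.MP_828627_an
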