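import Mathlib

open Filter Topology
open scoped ENNReal

noncomputable section

namespace Pool.Agent.Lib.MP_828627_an

def Om : Type := (Cardinal.aleph 1).ord.ToType

instance : LinearOrder Om := inferInstanceAs (LinearOrder (Cardinal.aleph 1).ord.ToType)
instance : WellFoundedLT Om := inferInstanceAs (WellFoundedLT (Cardinal.aleph 1).ord.ToType)

lemma mk_Om : Cardinal.mk Om = Cardinal.aleph 1 := Cardinal.mk_ord_toType _

instance : Uncountable Om := by
  rw [← Cardinal.aleph0_lt_mk_iff, mk_Om]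
  exact Cardinal.aleph0_lt_aleph_one

instance : OrderBot Om := WellFoundedLT.toOrderBot Om

lemma countable_of_lt_aleph_one {α : Type} {s : Set α} (h : Cardinal.mk s < Cardinal.aleph 1) :
    s.Countable := by
  rwa [← Cardinal.succ_aleph0, Order.lt_succ_iff, Cardinal.le_aleph0_iff_set_countable] at h

lemma countable_Iio (a : Om) : (Set.Iio a).Countable := by
  have := Cardinal.mk_Iio_lt (α := (Cardinal.aleph 1).ord.ToType) a (by simp)
  rw [Cardinal.mk_ord_toType] at this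
  exact countable_of_lt_aleph_one this

lemma countable_Iic (a : Om) : (Set.Iic a).Countable := by
  rw [← Set.Iio_insert]
  exact (countable_Iio a).insert a

lemma exists_ub {A : Set Om} (hA : A.Countable) : ∃ b, ∀ a ∈ A, a < b := by
  by_contra h
  push Not at h
  have h1 : (⋃ a ∈ A, Set.Iic a) = Set.univ := by
    ext b
    simp only [Set.mem_iUnion, Set.mem_Iic, Set.mem_univ, iff_true]
    obtain ⟨a, ha, hb⟩ := h b
    exact ⟨a, ha, hb⟩
  have h2 : (⋃ a ∈ A, Set.Iic a).Countable := hA.biUnion fun a _ => countable_Iic a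
  rw [h1] at h2
  exact Set.not_countable_univ h2

def pp : ℝ≥0∞ := 3 / 2

def pr : ℝ := 3 / 2

lemma pp_toReal : pp.toReal = pr := by
  unfold pp pr
  rw [ENNReal.toReal_div]
  norm_num

lemma one_lt_pr : 1 < pr := by unfold pr; norm_num
lemma pr_pos : 0 < pr := by unfold pr; norm_num
lemma pr_lt_two : pr < 2 := by unfold pr; norm_num

instance : Fact (1 ≤ pp) := ⟨by
  unfold pp
  rw [ENNReal.le_div_iff_mul_le (by simp) (by simp)]
  norm_num⟩

variable {𝕜 : Type} [RCLike 𝕜]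

abbrev H (𝕜 : Type) [RCLike 𝕜] := lp (fun _ : Om => 𝕜) 2

def D (n : ℕ) (u : ℕ → Om) : (Om → H 𝕜) →ₗ[𝕜] PiLp pp (fun _ : Fin n => H 𝕜) where
  toFun x := WithLp.toLp pp (fun i => x (u (i + 1)) - x (u i))
  map_add' x y := by
    ext1 i
    simp only [Pi.add_apply, PiLp.add_apply]
    abel
  map_smul' c x := by
    ext1 i
    simp only [Pi.smul_apply, PiLp.smul_apply, RingHom.id_apply, smul_sub]

lemma D_apply (n : ℕ) (u : ℕ → Om) (x : Om → H 𝕜) (i : Fin n) :
    D n u x i = x (u (i + 1)) - x (u i) := rfl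

def sm (x : Om → H 𝕜) (n : ℕ) (u : ℕ → Om) : ℝ :=
  ∑ i ∈ Finset.range n, ‖x (u (i + 1)) - x (u i)‖ ^ pr

lemma sm_nonneg (x : Om → H 𝕜) (n : ℕ) (u : ℕ → Om) : 0 ≤ sm x n u :=
  Finset.sum_nonneg fun _ _ => by positivity

lemma norm_D_rpow (n : ℕ) (u : ℕ → Om) (x : Om → H 𝕜) : ‖D n u x‖ ^ pr = sm x n u := by
  rw [PiLp.norm_eq_sum (by rw [pp_toReal]; exact pr_pos), pp_toReal, ← Real.rpow_mul
    (Finset.sum_nonneg fun _ _ => by positivity), one_div_mul_cancel pr_pos.ne', Real.rpow_one]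
  unfold sm
  rw [← Fin.sum_univ_eq_sum_range (fun i => ‖x (u (i + 1)) - x (u i)‖ ^ pr)]
  rfl

lemma norm_D_le_iff {n : ℕ} {u : ℕ → Om} {x : Om → H 𝕜} {C : ℝ} (hC : 0 ≤ C) :
    ‖D n u x‖ ≤ C ↔ sm x n u ≤ C ^ pr := by
  rw [← norm_D_rpow, Real.rpow_le_rpow_iff (norm_nonneg _) hC pr_pos]

lemma continuous_D (n : ℕ) (u : ℕ → Om) : Continuous (D (𝕜 := 𝕜) n u) :=
  (PiLp.continuous_toLp pp _).comp
    (continuous_pi fun _ => (continuous_apply _).sub (continuous_apply _))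

def VB (x : Om → H 𝕜) (C : ℝ) : Prop := ∀ n u, Monotone u → ‖D n u x‖ ≤ C

lemma VB.nonneg {x : Om → H 𝕜} {C : ℝ} (h : VB x C) : 0 ≤ C :=
  (norm_nonneg _).trans (h 0 (fun _ => ⊥) monotone_const)

lemma VB.mono {x : Om → H 𝕜} {C C' : ℝ} (h : VB x C) (hC : C ≤ C') : VB x C' :=
  fun n u hu => (h n u hu).trans hC

lemma VB.add {x y : Om → H 𝕜} {C C' : ℝ} (h : VB x C) (h' : VB y C') : VB (x + y) (C + C') :=
  fun n u hu => by
    rw [map_add]
    exact (norm_add_le _ _).trans (add_le_add (h n u hu) (h' n u hu))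

lemma VB.sub {x y : Om → H 𝕜} {C C' : ℝ} (h : VB x C) (h' : VB y C') : VB (x - y) (C + C') :=
  fun n u hu => by
    rw [map_sub]
    exact (norm_sub_le _ _).trans (add_le_add (h n u hu) (h' n u hu))

lemma VB.smul {x : Om → H 𝕜} {C : ℝ} (h : VB x C) (c : 𝕜) : VB (c • x) (‖c‖ * C) :=
  fun n u hu => by
    rw [map_smul, norm_smul]
    exact mul_le_mul_of_nonneg_left (h n u hu) (norm_nonneg c)

lemma VB_zero : VB (0 : Om → H 𝕜) 0 := fun n u _ => by simp

lemma VB.comp {x : Om → H 𝕜} {C : ℝ} (h : VB x C) {m : Om → Om} (hm : Monotone m) :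
    VB (x ∘ m) C := fun n u hu => h n (m ∘ u) (hm.comp hu)

lemma VB.sub_const {x : Om → H 𝕜} {C : ℝ} (h : VB x C) (w : H 𝕜) : VB (fun b => x b - w) C :=
  fun n u hu => by
    have : D n u (fun b => x b - w) = D n u x := by
      ext1 i
      simp only [D_apply]
      abel
    rw [this]
    exact h n u hu

lemma VB.sub_le {x : Om → H 𝕜} {C : ℝ} (h : VB x C) {a b : Om} (hab : a ≤ b) :
    ‖x b - x a‖ ≤ C := by
  have hu : Monotone (fun i : ℕ => if i = 0 then a else b) := by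
    intro i j hij
    by_cases hi : i = 0
    · by_cases hj : j = 0 <;> simp [hi, hj, hab]
    · have hj : j ≠ 0 := by omega
      simp [hi, hj]
  have h1 := h 1 _ hu
  have h2 := PiLp.norm_apply_le (D 1 (fun i : ℕ => if i = 0 then a else b) x) 0
  rw [D_apply] at h2
  simpa using h2.trans h1

lemma VB_ind {U : Set Om} (hU : IsUpperSet U) (w : H 𝕜) :
    VB (U.indicator fun _ => w) ‖w‖ := by
  classical
  intro n u hu
  rw [norm_D_le_iff (norm_nonneg w)]
  unfold sm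
  set t : ℕ → ℝ := fun i => if u i ∈ U then 1 else 0 with ht
  have h1 : ∀ i ∈ Finset.range n,
      ‖U.indicator (fun _ => w) (u (i + 1)) - U.indicator (fun _ => w) (u i)‖ ^ pr
        = ‖w‖ ^ pr * (t (i + 1) - t i) := by
    intro i _
    by_cases h2 : u i ∈ U
    · have h3 : u (i + 1) ∈ U := hU (hu (Nat.le_succ i)) h2
      simp [ht, h2, h3, Real.zero_rpow pr_pos.ne']
    · by_cases h3 : u (i + 1) ∈ U
      · simp [ht, h2, h3]
      · simp [ht, h2, h3, Real.zero_rpow pr_pos.ne']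
  rw [Finset.sum_congr rfl h1, ← Finset.mul_sum, Finset.sum_range_sub]
  have h4 : t n - t 0 ≤ 1 := by
    simp only [ht]
    split_ifs <;> norm_num
  have h5 : 0 ≤ ‖w‖ ^ pr := by positivity
  nlinarith

lemma VB_Ioc (a b : Om) (w : H 𝕜) : VB ((Set.Ioc a b).indicator fun _ => w) (2 * ‖w‖) := by
  by_cases hab : a ≤ b
  · have : ((Set.Ioc a b).indicator fun _ => w) =
        ((Set.Ioi a).indicator fun _ => w) - (Set.Ioi b).indicator fun _ => w := by
      ext1 c
      simp only [Pi.sub_apply, Set.indicator_apply, Set.mem_Ioc, Set.mem_Ioi]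
      by_cases h1 : a < c
      · by_cases h2 : c ≤ b
        · simp [h1, h2, not_lt.mpr h2]
        · simp [h1, h2, not_le.mp h2]
      · have h2 : ¬ b < c := fun h => h1 (hab.trans_lt h)
        simp [h1, h2]
    rw [this, two_mul]
    exact (VB_ind (isUpperSet_Ioi a) w).sub (VB_ind (isUpperSet_Ioi b) w)
  · rw [Set.Ioc_eq_empty (fun h => hab h.le), Set.indicator_empty]
    exact VB_zero.mono (by positivity)

lemma VB_of_finite {x : Om → H 𝕜} {C : ℝ}
    (h : ∀ F : Finset Om, ∃ z : Om → H 𝕜, VB z C ∧ ∀ b ∈ F, z b = x b) : VB x C := by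
  classical
  intro n u hu
  obtain ⟨z, hz, hF⟩ := h ((Finset.range (n + 1)).image u)
  have : D n u x = D n u z := by
    ext1 i
    rw [D_apply, D_apply, hF, hF]
    · exact Finset.mem_image_of_mem u (Finset.mem_range.mpr (by omega))
    · exact Finset.mem_image_of_mem u (Finset.mem_range.mpr (by omega))
  rw [this]
  exact hz n u hu

def Vsub (𝕜 : Type) [RCLike 𝕜] : Submodule 𝕜 (Om → H 𝕜) where
  carrier := {x | (∀ b c, b ≤ c → x b c = 0) ∧ ∃ C, VB x C}
  add_mem' := by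
    rintro x y ⟨hx, C, hC⟩ ⟨hy, C', hC'⟩
    refine ⟨fun b c h => ?_, _, hC.add hC'⟩
    simp [hx b c h, hy b c h]
  zero_mem' := ⟨fun _ _ _ => rfl, 0, VB_zero⟩
  smul_mem' := by
    rintro c x ⟨hx, C, hC⟩
    refine ⟨fun b d h => ?_, _, hC.smul c⟩
    simp [hx b d h]

def V (𝕜 : Type) [RCLike 𝕜] : Type := Vsub 𝕜

instance : AddCommGroup (V 𝕜) := inferInstanceAs (AddCommGroup (Vsub 𝕜))
instance : Module 𝕜 (V 𝕜) := inferInstanceAs (Module 𝕜 (Vsub 𝕜))

def val : V 𝕜 →ₗ[𝕜] (Om → H 𝕜) := (Vsub 𝕜).subtype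

lemma val_injective : Function.Injective (val (𝕜 := 𝕜)) := Subtype.val_injective

def mkV (x : Om → H 𝕜) (h1 : ∀ b c, b ≤ c → x b c = 0) {C : ℝ} (h2 : VB x C) : V 𝕜 :=
  (⟨x, h1, C, h2⟩ : Vsub 𝕜)

@[simp] lemma val_mkV (x : Om → H 𝕜) (h1 : ∀ b c, b ≤ c → x b c = 0) {C : ℝ} (h2 : VB x C) :
    val (mkV x h1 h2) = x := rfl

lemma val_eq_zero (x : V 𝕜) {b c : Om} (h : b ≤ c) : val x b c = 0 := (x : Vsub 𝕜).2.1 b c h

lemma val_bot (x : V 𝕜) : val x ⊥ = 0 := by
  ext c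
  exact val_eq_zero x bot_le

def nrm (x : V 𝕜) : ℝ := ⨆ s : ℕ × {u : ℕ → Om // Monotone u}, ‖D s.1 s.2.1 (val x)‖

instance : Nonempty (ℕ × {u : ℕ → Om // Monotone u}) := ⟨(0, ⟨fun _ => ⊥, monotone_const⟩)⟩

lemma VB_nrm (x : V 𝕜) : VB (val x) (nrm x) := by
  intro n u hu
  obtain ⟨C, hC⟩ := (x : Vsub 𝕜).2.2
  refine le_ciSup (f := fun s : ℕ × {u : ℕ → Om // Monotone u} => ‖D s.1 s.2.1 (val x)‖)
    ⟨C, ?_⟩ (n, ⟨u, hu⟩)
  rintro _ ⟨s, rfl⟩
  exact hC _ _ s.2.2

lemma nrm_le {x : V 𝕜} {C : ℝ} (h : VB (val x) C) : nrm x ≤ C :=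
  ciSup_le fun s => h _ _ s.2.2

def grpNorm : AddGroupNorm (V 𝕜) where
  toFun := nrm
  map_zero' := le_antisymm (nrm_le (by rw [map_zero]; exact VB_zero)) (VB_nrm _).nonneg
  add_le' x y := nrm_le (by rw [map_add]; exact (VB_nrm x).add (VB_nrm y))
  neg' x := by
    unfold nrm
    simp only [map_neg, norm_neg]
  eq_zero_of_map_eq_zero' x h := by
    apply val_injective
    ext1 b
    have h1 := (VB_nrm x).sub_le (bot_le (a := b))
    rw [val_bot, sub_zero, h] at h1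
    simpa using h1

instance : NormedAddCommGroup (V 𝕜) := grpNorm.toNormedAddCommGroup

lemma VB_norm (x : V 𝕜) : VB (val x) ‖x‖ := VB_nrm x

lemma norm_le {x : V 𝕜} {C : ℝ} (h : VB (val x) C) : ‖x‖ ≤ C := nrm_le h

instance : NormedSpace 𝕜 (V 𝕜) where
  norm_smul_le c x := norm_le (by rw [map_smul]; exact (VB_norm x).smul c)

lemma norm_val_le (x : V 𝕜) (b : Om) : ‖val x b‖ ≤ ‖x‖ := by
  have h1 := (VB_norm x).sub_le (bot_le (a := b))
  rwa [val_bot, sub_zero] at h1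

def ev (b : Om) : V 𝕜 →L[𝕜] H 𝕜 :=
  LinearMap.mkContinuous ((LinearMap.proj b).comp val) 1 fun x => by
    rw [one_mul]; exact norm_val_le x b

@[simp] lemma ev_apply (b : Om) (x : V 𝕜) : ev b x = val x b := rfl

instance : CompleteSpace (V 𝕜) := by
  apply Metric.complete_of_cauchySeq_tendsto
  intro x hx
  have h1 : ∀ b, ∃ w, Tendsto (fun k => val (x k) b) atTop (𝓝 w) := fun b =>
    cauchySeq_tendsto_of_complete ((ev b).uniformContinuous.comp_cauchySeq hx)
  choose y hy using h1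
  have hy' : Tendsto (fun k => val (x k)) atTop (𝓝 y) := tendsto_pi_nhds.mpr hy
  have h2 : ∀ ε > 0, ∃ N, ∀ k ≥ N, VB (val (x k) - y) ε := by
    intro ε hε
    obtain ⟨N, hN⟩ := Metric.cauchySeq_iff.mp hx ε hε
    refine ⟨N, fun k hk n u hu => ?_⟩
    have h3 : Tendsto (fun l => ‖D n u (val (x k) - val (x l))‖) atTop
        (𝓝 ‖D n u (val (x k) - y)‖) :=
      (((continuous_D n u).tendsto _).comp (tendsto_const_nhds.sub hy')).norm
    refine le_of_tendsto h3 ?_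
    filter_upwards [eventually_ge_atTop N] with l hl
    have h4 := hN k hk l hl
    rw [dist_eq_norm] at h4
    rw [← map_sub]
    exact (VB_norm _ n u hu).trans h4.le
  have h5 : ∀ b c, b ≤ c → y b c = 0 := by
    intro b c h
    have h6 : Tendsto (fun k => val (x k) b c) atTop (𝓝 (y b c)) :=
      (((lp.evalCLM 𝕜 (fun _ : Om => 𝕜) 2 c).continuous).tendsto _).comp (hy b)
    simp only [val_eq_zero _ h] at h6
    exact tendsto_nhds_unique h6 tendsto_const_nhds
  obtain ⟨N, hN⟩ := h2 1 one_pos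
  have h7 : VB y (‖x N‖ + 1) := by
    have := (VB_norm (x N)).sub (hN N le_rfl)
    simpa using this
  refine ⟨mkV y h5 h7, Metric.tendsto_atTop.mpr fun ε hε => ?_⟩
  obtain ⟨M, hM⟩ := h2 (ε / 2) (by positivity)
  refine ⟨M, fun k hk => ?_⟩
  rw [dist_eq_norm]
  refine lt_of_le_of_lt (norm_le ?_) (half_lt_self hε)
  rw [map_sub, val_mkV]
  exact hM k hk

end Pool.Agent.Lib.MP_828627_an
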