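import Pool.Agent.Lib.MP_828627_an.Defs
import Pool.Agent.Lib.MP_828627_an.Space

open Filter Topology
open scoped ENNReal

noncomputable section

namespace Pool.Agent.Lib.MP_828627_an

variable {𝕜 : Type} [RCLike 𝕜]

section General

variable {X Y : Type} [NormedAddCommGroup X] [NormedSpace 𝕜 X] [NormedAddCommGroup Y]
  [NormedSpace 𝕜 Y]

lemma isNorming_iff (N : Submodule 𝕜 (StrongDual 𝕜 X)) :
    IsNorming 𝕜 X N ↔ ∃ c : ℝ, 0 < c ∧ ∀ x : X, ∃ f ∈ N, ‖f‖ ≤ 1 ∧ c * ‖x‖ ≤ ‖f x‖ := by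
  constructor
  · rintro ⟨c, hc, h⟩
    refine ⟨c / 2, by positivity, fun x => ?_⟩
    by_cases hx : x = 0
    · exact ⟨0, N.zero_mem, by simp, by simp [hx]⟩
    · have h1 : 0 < ‖x‖ := norm_pos_iff.mpr hx
      have h2 : c / 2 * ‖x‖ < sSup {r : ℝ | ∃ f ∈ N, ‖f‖ ≤ 1 ∧ r = ‖f x‖} := by
        have := h x
        nlinarith
      have hne : Set.Nonempty {r : ℝ | ∃ f ∈ N, ‖f‖ ≤ 1 ∧ r = ‖f x‖} :=
        ⟨_, (0 : StrongDual 𝕜 X), N.zero_mem, by simp, rfl⟩
      obtain ⟨r, ⟨f, hf, hf1, rfl⟩, hr⟩ := exists_lt_of_lt_csSup hne h2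
      exact ⟨f, hf, hf1, hr.le⟩
  · rintro ⟨c, hc, h⟩
    refine ⟨c, hc, fun x => ?_⟩
    obtain ⟨f, hf, hf1, h2⟩ := h x
    refine le_csSup_of_le ⟨‖x‖, ?_⟩ ⟨f, hf, hf1, rfl⟩ h2
    rintro r ⟨g, -, hg1, rfl⟩
    calc ‖g x‖ ≤ ‖g‖ * ‖x‖ := g.le_opNorm x
      _ ≤ 1 * ‖x‖ := by gcongr
      _ = ‖x‖ := one_mul _

lemma IsPlichko.of_equiv (e : X ≃L[𝕜] Y) (h : IsPlichko 𝕜 Y) : IsPlichko 𝕜 X := by
  obtain ⟨S, N, hS, hN, hc⟩ := h
  let L : StrongDual 𝕜 X →ₗ[𝕜] StrongDual 𝕜 Y :=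
    { toFun := fun f => f.comp (e.symm : Y →L[𝕜] X)
      map_add' := fun f g => rfl
      map_smul' := fun c f => rfl }
  refine ⟨e.symm '' S, N.comap L, ?_, ?_, ?_⟩
  · have h1 : Submodule.span 𝕜 (e.symm '' S)
        = (Submodule.span 𝕜 S).map (e.symm : Y →ₗ[𝕜] X) := by
      rw [Submodule.map_span]
      rfl
    rw [h1, Submodule.map_coe]
    exact e.symm.surjective.denseRange.dense_image e.symm.continuous hS
  · rw [isNorming_iff] at hN ⊢
    obtain ⟨c, hc, h⟩ := hN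
    set A := ‖(e : X →L[𝕜] Y)‖ + 1 with hA
    set B := ‖(e.symm : Y →L[𝕜] X)‖ + 1 with hB
    have hA0 : 0 < A := by positivity
    have hB0 : 0 < B := by positivity
    refine ⟨c / (A * B), by positivity, fun x => ?_⟩
    obtain ⟨g, hg, hg1, h2⟩ := h (e x)
    refine ⟨((A⁻¹ : ℝ) : 𝕜) • g.comp (e : X →L[𝕜] Y), ?_, ?_, ?_⟩
    · apply Submodule.smul_mem
      rw [Submodule.mem_comap]
      convert hg using 1
      ext y
      change g (e (e.symm y)) = g y
      rw [e.apply_symm_apply]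
    · rw [norm_smul, RCLike.norm_ofReal, abs_of_pos (inv_pos.mpr hA0), inv_mul_le_iff₀ hA0]
      calc ‖g.comp (e : X →L[𝕜] Y)‖ ≤ ‖g‖ * ‖(e : X →L[𝕜] Y)‖ := g.opNorm_comp_le _
        _ ≤ 1 * A := by gcongr; linarith
        _ = A * 1 := by ring
    · rw [smul_apply, norm_smul, RCLike.norm_ofReal,
        abs_of_pos (inv_pos.mpr hA0)]
      have h3 : ‖x‖ ≤ B * ‖e x‖ := by
        calc ‖x‖ = ‖(e.symm : Y →L[𝕜] X) (e x)‖ := by simp
          _ ≤ ‖(e.symm : Y →L[𝕜] X)‖ * ‖e x‖ := ContinuousLinearMap.le_opNorm _ _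
          _ ≤ B * ‖e x‖ := by gcongr; linarith
      calc c / (A * B) * ‖x‖ ≤ c / (A * B) * (B * ‖e x‖) := by gcongr
        _ = A⁻¹ * (c * ‖e x‖) := by field_simp
        _ ≤ A⁻¹ * ‖g (e x)‖ := by gcongr
        _ = _ := rfl
  · intro f hf
    have h1 := hc (L f) hf
    refine (h1.image e.symm).mono ?_
    rintro _ ⟨⟨s, hs, rfl⟩, h2⟩
    exact ⟨s, ⟨hs, h2⟩, rfl⟩

end General

def P (a : Om) : V 𝕜 →L[𝕜] V 𝕜 :=
  LinearMap.mkContinuous
    { toFun := fun x => mkV (val x ∘ fun b => min a b)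
        (fun _ _ h => val_eq_zero x ((min_le_right _ _).trans h))
        ((VB_norm x).comp (monotone_const.min monotone_id))
      map_add' := fun x y => val_injective (by ext1 b; simp)
      map_smul' := fun c x => val_injective (by ext1 b; simp) } 1
    fun x => by
      rw [one_mul]
      exact norm_le ((VB_norm x).comp (monotone_const.min monotone_id))

@[simp] lemma val_P (a : Om) (x : V 𝕜) (b : Om) : val (P a x) b = val x (min a b) := rfl

lemma norm_P_le (a : Om) (x : V 𝕜) : ‖P a x‖ ≤ ‖x‖ :=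
  norm_le ((VB_norm x).comp (monotone_const.min monotone_id))

lemma P_P {a b : Om} (h : a ≤ b) (x : V 𝕜) : P a (P b x) = P a x := by
  apply val_injective
  ext1 c
  rw [val_P, val_P, val_P, ← min_assoc, min_eq_right h]

lemma P_bot (x : V 𝕜) : P ⊥ x = 0 := by
  apply val_injective
  ext1 c
  simp [val_bot]

lemma norm_rpow_le {x : V 𝕜} {K : ℝ} (h : ∀ n u, Monotone u → sm (val x) n u ≤ K) :
    ‖x‖ ^ pr ≤ K := by
  have hK : 0 ≤ K := (sm_nonneg _ _ _).trans (h 0 (fun _ => ⊥) monotone_const)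
  have h1 : (K ^ pr⁻¹) ^ pr = K := Real.rpow_inv_rpow hK pr_pos.ne'
  have h2 : ‖x‖ ≤ K ^ pr⁻¹ := norm_le fun n u hu => by
    rw [norm_D_le_iff (by positivity), h1]
    exact h n u hu
  rw [← h1]
  exact Real.rpow_le_rpow (norm_nonneg _) h2 pr_pos.le

lemma sm_le (x : V 𝕜) (n : ℕ) {u : ℕ → Om} (hu : Monotone u) : sm (val x) n u ≤ ‖x‖ ^ pr :=
  (norm_D_le_iff (norm_nonneg _)).mp (VB_norm x n u hu)

lemma superadd (b : Om) (x : V 𝕜) : ‖P b x‖ ^ pr + ‖x - P b x‖ ^ pr ≤ ‖x‖ ^ pr := by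
  have key : ∀ n u, Monotone u → ∀ m v, Monotone v →
      sm (val (P b x)) n u + sm (val (x - P b x)) m v ≤ ‖x‖ ^ pr := by
    intro n u hu m v hv
    set w : ℕ → Om := fun i => if i ≤ n then min b (u i) else max b (v (i - (n + 1))) with hw
    have hwm : Monotone w := by
      intro i j hij
      simp only [hw]
      by_cases hj : j ≤ n
      · rw [if_pos hj, if_pos (hij.trans hj)]
        exact min_le_min_left _ (hu hij)
      · rw [if_neg hj]
        by_cases hi : i ≤ n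
        · rw [if_pos hi]
          exact (min_le_left _ _).trans (le_max_left _ _)
        · rw [if_neg hi]
          exact max_le_max_left _ (hv (by omega))
    have h1 := sm_le x (n + 1 + m) hwm
    unfold sm at h1 ⊢
    rw [Finset.sum_range_add, Finset.sum_range_succ] at h1
    have h2 : ∑ i ∈ Finset.range n, ‖val (P b x) (u (i + 1)) - val (P b x) (u i)‖ ^ pr
        = ∑ i ∈ Finset.range n, ‖val x (w (i + 1)) - val x (w i)‖ ^ pr := by
      refine Finset.sum_congr rfl fun i hi => ?_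
      have := Finset.mem_range.mp hi
      simp only [hw, val_P]
      rw [if_pos (by omega), if_pos (by omega)]
    have h4 : ∀ c, val (x - P b x) c = val x (max b c) - val x b := by
      intro c
      rw [map_sub, Pi.sub_apply, val_P]
      rcases le_total b c with h | h
      · rw [min_eq_left h, max_eq_right h]
      · rw [min_eq_right h, max_eq_left h, sub_self, sub_self]
    have h3 : ∑ i ∈ Finset.range m, ‖val (x - P b x) (v (i + 1)) - val (x - P b x) (v i)‖ ^ pr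
        = ∑ i ∈ Finset.range m, ‖val x (w (n + 1 + i + 1)) - val x (w (n + 1 + i))‖ ^ pr := by
      refine Finset.sum_congr rfl fun i _ => ?_
      simp only [hw, h4]
      rw [if_neg (by omega), if_neg (by omega), show n + 1 + i + 1 - (n + 1) = i + 1 by omega,
        show n + 1 + i - (n + 1) = i by omega, sub_sub_sub_cancel_right]
    rw [h2, h3]
    have h5 : 0 ≤ ‖val x (w (n + 1)) - val x (w n)‖ ^ pr := by positivity
    linarith
  have h6 : ∀ m v, Monotone v → sm (val (x - P b x)) m v ≤ ‖x‖ ^ pr - ‖P b x‖ ^ pr := by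
    intro m v hv
    have : ‖P b x‖ ^ pr ≤ ‖x‖ ^ pr - sm (val (x - P b x)) m v :=
      norm_rpow_le fun n u hu => by linarith [key n u hu m v hv]
    linarith
  linarith [norm_rpow_le h6]

lemma tail (x : V 𝕜) {I : Set Om} (hI : I.Nonempty) {ε : ℝ} (hε : 0 < ε) :
    ∃ b ∈ I, ∀ b' ∈ I, b ≤ b' → ‖P b' x - P b x‖ ≤ ε := by
  have hb : BddAbove ((fun b => ‖P b x‖ ^ pr) '' I) := by
    refine ⟨‖x‖ ^ pr, ?_⟩
    rintro _ ⟨b, -, rfl⟩
    exact Real.rpow_le_rpow (norm_nonneg _) (norm_P_le b x) pr_pos.le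
  have h1 : 0 < ε ^ pr := by positivity
  obtain ⟨_, ⟨b, hbI, rfl⟩, h2⟩ := exists_lt_of_lt_csSup (hI.image _)
    (show sSup ((fun b => ‖P b x‖ ^ pr) '' I) - ε ^ pr < sSup ((fun b => ‖P b x‖ ^ pr) '' I) by
      linarith)
  refine ⟨b, hbI, fun b' hb' h => ?_⟩
  have h3 := superadd b (P b' x)
  rw [P_P h] at h3
  have h4 : ‖P b' x‖ ^ pr ≤ sSup ((fun b => ‖P b x‖ ^ pr) '' I) := le_csSup hb ⟨b', hb', rfl⟩
  rw [← Real.rpow_le_rpow_iff (norm_nonneg _) hε.le pr_pos]
  simp only at h2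
  linarith

lemma VB.cut {x : Om → H 𝕜} {C : ℝ} (h : VB x C) (b : Om) (h0 : ‖x b‖ ≤ C) :
    VB ((Set.Iic b).indicator x) (2 * C) := by
  have : (Set.Iic b).indicator x
      = (x ∘ fun c => min b c) - (Set.Ioi b).indicator fun _ => x b := by
    ext1 c
    simp only [Pi.sub_apply, Set.indicator_apply, Set.mem_Iic, Set.mem_Ioi, Function.comp_apply]
    by_cases h1 : c ≤ b
    · simp [h1, not_lt.mpr h1]
    · simp [h1, not_le.mp h1, (not_le.mp h1).le]
  rw [this, two_mul]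
  exact (h.comp (monotone_const.min monotone_id)).sub
    ((VB_ind (isUpperSet_Ioi b) (x b)).mono h0)

def eb (c : Om) : H 𝕜 := lp.single 2 c 1

lemma eb_apply (c d : Om) : (eb c : H 𝕜) d = if d = c then 1 else 0 := by
  unfold eb
  rw [lp.single_apply, Pi.single_apply]

lemma norm_eb (c : Om) : ‖(eb c : H 𝕜)‖ = 1 := by
  unfold eb
  rw [lp.norm_single (by simp), norm_one]

lemma approx (w : H 𝕜) {d : Om} (hw : ∀ c, d ≤ c → w c = 0) {ε : ℝ} (hε : 0 < ε) :
    ∃ s : Finset Om, (∀ c ∈ s, c < d) ∧ ‖w - ∑ c ∈ s, w c • eb c‖ ≤ ε := by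
  classical
  have h1 := lp.hasSum_single (E := fun _ : Om => 𝕜) (p := 2) (by simp) w
  obtain ⟨s, hs⟩ := (Metric.tendsto_atTop.mp h1) ε hε
  have h2 := hs s le_rfl
  refine ⟨s.filter (· < d), fun c hc => (Finset.mem_filter.mp hc).2, ?_⟩
  have h3 : ∑ c ∈ s.filter (· < d), w c • (eb c : H 𝕜) = ∑ c ∈ s, lp.single 2 c (w c) := by
    rw [Finset.sum_filter]
    refine Finset.sum_congr rfl fun c _ => ?_
    have h4 : w c • (eb c : H 𝕜) = lp.single 2 c (w c) := by
      unfold eb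
      rw [← lp.single_smul, smul_eq_mul, mul_one]
    split_ifs with h
    · exact h4
    · rw [← h4, hw c (not_lt.mp h), zero_smul]
  rw [h3, ← dist_eq_norm, dist_comm]
  exact h2.le

lemma ind_supp {U : Set Om} {w : H 𝕜} {d : Om} (hU : ∀ b ∈ U, d ≤ b)
    (hw : ∀ c, d ≤ c → w c = 0) : ∀ b c, b ≤ c → (U.indicator fun _ => w) b c = 0 := by
  intro b c h
  by_cases hb : b ∈ U
  · rw [Set.indicator_of_mem hb]
    exact hw c ((hU b hb).trans h)
  · rw [Set.indicator_of_notMem hb]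
    rfl

def tlV (d : Om) (w : H 𝕜) (hw : ∀ c, d ≤ c → w c = 0) : V 𝕜 :=
  mkV ((Set.Ici d).indicator fun _ => w) (ind_supp (fun _ h => h) hw)
    (VB_ind (isUpperSet_Ici d) w)

lemma eb_supp {c d : Om} (h : c < d) : ∀ c', d ≤ c' → (eb c : H 𝕜) c' = 0 := by
  intro c' h'
  rw [eb_apply, if_neg (h.trans_le h').ne']

def tailSet (𝕜 : Type) [RCLike 𝕜] : Set (V 𝕜) :=
  {x | ∃ (c d : Om) (h : c < d), x = tlV d (eb c) (eb_supp h)}

lemma tlV_mem (d : Om) (w : H 𝕜) (hw : ∀ c, d ≤ c → w c = 0) :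
    tlV d w hw ∈ (Submodule.span 𝕜 (tailSet 𝕜)).topologicalClosure := by
  classical
  rw [← SetLike.mem_coe, Submodule.topologicalClosure_coe, Metric.mem_closure_iff]
  intro ε hε
  obtain ⟨s, hs, h1⟩ := approx w hw (half_pos hε)
  refine ⟨∑ c ∈ s.attach, w c • tlV d (eb c) (eb_supp (hs c c.2)), ?_, ?_⟩
  · exact Submodule.sum_mem _ fun c _ => Submodule.smul_mem _ _
      (Submodule.subset_span ⟨c, d, hs c c.2, rfl⟩)
  · rw [dist_eq_norm]
    refine lt_of_le_of_lt (norm_le ?_) (half_lt_self hε)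
    have : val (tlV d w hw - ∑ c ∈ s.attach, w c • tlV d (eb c) (eb_supp (hs c c.2)))
        = (Set.Ici d).indicator fun _ => w - ∑ c ∈ s, w c • eb c := by
      ext1 b
      rw [map_sub, map_sum, Pi.sub_apply, Finset.sum_apply]
      simp only [map_smul, tlV, val_mkV, Pi.smul_apply]
      by_cases hb : b ∈ Set.Ici d
      · simp only [Set.indicator_of_mem hb]
        rw [Finset.sum_attach s (fun c => w c • (eb c : H 𝕜))]
      · simp [Set.indicator_of_notMem hb]
    rw [this]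
    exact (VB_ind (isUpperSet_Ici d) _).mono h1

lemma P_mem (x : V 𝕜) (a : Om) :
    P a x ∈ (Submodule.span 𝕜 (tailSet 𝕜)).topologicalClosure := by
  classical
  induction a using WellFoundedLT.induction with
  | ind a ih =>
    by_cases ha : a = ⊥
    · rw [ha, P_bot]
      exact Submodule.zero_mem _
    have hI : (Set.Iio a).Nonempty := ⟨⊥, bot_lt_iff_ne_bot.mpr ha⟩
    rw [← SetLike.mem_coe, ← (Submodule.isClosed_topologicalClosure _).closure_eq,
      Metric.mem_closure_iff]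
    intro ε hε
    obtain ⟨b, hb, h1⟩ := tail x hI (show 0 < ε / 4 by positivity)
    have hb' : b < a := hb
    have hw : ∀ c, a ≤ c → (val x a - val x b) c = 0 := by
      intro c hc
      simp [val_eq_zero x hc, val_eq_zero x (hb'.le.trans hc)]
    refine ⟨P b x + tlV a _ hw, Submodule.add_mem _ (ih b hb) (tlV_mem _ _ _), ?_⟩
    rw [dist_eq_norm]
    refine lt_of_le_of_lt (norm_le (VB_of_finite fun F => ?_)) (half_lt_self hε)
    set b' := (insert b (F.filter (· < a))).max' (Finset.insert_nonempty _ _) with hb'def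
    have h2 : b' < a := by
      rw [hb'def, Finset.max'_lt_iff]
      intro c hc
      rcases Finset.mem_insert.mp hc with rfl | hc
      · exact hb'
      · exact (Finset.mem_filter.mp hc).2
    have h3 : b ≤ b' := Finset.le_max' _ _ (Finset.mem_insert_self _ _)
    have h4 := h1 b' h2 h3
    refine ⟨(Set.Iic b').indicator (val (P b' x - P b x)), ?_, ?_⟩
    · have := ((VB_norm _).mono h4).cut b' ((norm_val_le _ _).trans h4)
      exact this.mono (by linarith)
    · intro c hc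
      simp only [map_sub, map_add, Pi.sub_apply, Pi.add_apply, val_P, tlV, val_mkV]
      by_cases hca : c < a
      · have h5 : c ≤ b' := Finset.le_max' _ _
          (Finset.mem_insert_of_mem (Finset.mem_filter.mpr ⟨hc, hca⟩))
        rw [Set.indicator_of_mem (show c ∈ Set.Iic b' from h5),
          Set.indicator_of_notMem (show c ∉ Set.Ici a from not_le.mpr hca)]
        simp [min_eq_right h5, min_eq_right hca.le]
      · have h5 : a ≤ c := not_lt.mp hca
        rw [Set.indicator_of_notMem (show c ∉ Set.Iic b' from not_le.mpr (h2.trans_le h5)),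
          Set.indicator_of_mem (show c ∈ Set.Ici a from h5)]
        simp [min_eq_left h5, min_eq_left (hb'.le.trans h5)]

lemma P_approx (x : V 𝕜) {ε : ℝ} (hε : 0 < ε) : ∃ b, ‖x - P b x‖ ≤ ε := by
  classical
  obtain ⟨b, -, h1⟩ := tail x Set.univ_nonempty hε
  refine ⟨b, norm_le (VB_of_finite fun F => ?_)⟩
  set b' := (insert b F).max' (Finset.insert_nonempty _ _) with hb'def
  have h3 : b ≤ b' := Finset.le_max' _ _ (Finset.mem_insert_self _ _)
  refine ⟨val (P b' x - P b x), (VB_norm _).mono (h1 b' trivial h3), fun c hc => ?_⟩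
  have h5 : c ≤ b' := Finset.le_max' _ _ (Finset.mem_insert_of_mem hc)
  simp [min_eq_right h5]

theorem isPlichko_V : IsPlichko 𝕜 (V 𝕜) := by
  let N : Submodule 𝕜 (StrongDual 𝕜 (V 𝕜)) :=
    { carrier := {f | ∃ a, ∀ x, f (P a x) = f x}
      add_mem' := by
        rintro f g ⟨a, ha⟩ ⟨b, hb⟩
        refine ⟨max a b, fun x => ?_⟩
        rw [add_apply, add_apply, ← ha (P _ x),
          ← hb (P _ x), P_P (le_max_left _ _), P_P (le_max_right _ _), ha, hb]
      zero_mem' := ⟨⊥, fun _ => rfl⟩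
      smul_mem' := by
        rintro c f ⟨a, ha⟩
        exact ⟨a, fun x => by simp [ha]⟩ }
  refine ⟨tailSet 𝕜, N, ?_, ?_, ?_⟩
  · intro x
    rw [← closure_closure, Metric.mem_closure_iff]
    intro ε hε
    obtain ⟨b, hb⟩ := P_approx x (half_pos hε)
    exact ⟨P b x, P_mem x b, by rw [dist_eq_norm]; linarith⟩
  · rw [isNorming_iff]
    refine ⟨1 / 2, by norm_num, fun x => ?_⟩
    by_cases hx : x = 0
    · exact ⟨0, N.zero_mem, by simp, by simp [hx]⟩
    have h1 : 0 < ‖x‖ := norm_pos_iff.mpr hx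
    obtain ⟨b, hb⟩ := P_approx x (half_pos h1)
    obtain ⟨g, hg1, hg2⟩ := exists_dual_vector'' 𝕜 (P b x)
    refine ⟨g.comp (P b), ⟨b, fun y => by simp [P_P le_rfl]⟩, ?_, ?_⟩
    · refine ContinuousLinearMap.opNorm_le_bound _ zero_le_one fun y => ?_
      calc ‖g (P b y)‖ ≤ ‖g‖ * ‖P b y‖ := g.le_opNorm _
        _ ≤ 1 * ‖y‖ := by gcongr; exact norm_P_le b y
    · rw [ContinuousLinearMap.comp_apply, hg2, RCLike.norm_ofReal, abs_norm]
      have := norm_sub_norm_le x (P b x)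
      linarith
  · rintro f ⟨a, ha⟩
    have hc : ((Set.Iic a ×ˢ Set.Iic a : Set (Om × Om))).Countable :=
      (countable_Iic a).prod (countable_Iic a)
    classical
    refine (hc.image fun q => if h : q.1 < q.2 then tlV q.2 (eb q.1) (eb_supp h) else 0).mono ?_
    rintro _ ⟨⟨c, d, h, rfl⟩, h2⟩
    have hd : d ≤ a := by
      by_contra hd
      apply h2
      have : P a (tlV d (eb c) (eb_supp h) : V 𝕜) = 0 := by
        apply val_injective
        ext1 b
        rw [val_P, tlV, val_mkV, Set.indicator_of_notMem]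
        · rfl
        · exact not_le.mpr ((min_le_left _ _).trans_lt (not_le.mp hd))
      rw [← ha, this, map_zero]
    exact ⟨(c, d), ⟨h.le.trans hd, hd⟩, by simp [h]⟩

end Pool.Agent.Lib.MP_828627_an
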